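import Mathlib

/-!
# Definitions for the question about incidence algebras and coefficient systems

* `gldim C` : global dimension of an abelian category;
* `SubCl G` : the poset of conjugacy classes of subgroups of a finite group;
* `Orb G` : the orbit category; `Coef G` : rational coefficient systems.
-/

open CategoryTheory

namespace Pool.V113.Gd

/-- The global dimension of an abelian category: the supremum of the
projective dimensions of its objects. -/
noncomputable def gldim (C : Type 1) [Category.{0} C] [Abelian C] : WithBot ℕ∞ :=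
  ⨆ X : C, projectiveDimension X

section SubCl

variable (G : Type) [Group G]

/-- Subgroups of `G` up to conjugacy. -/
def conjSetoid : Setoid (Subgroup G) where
  r H K := ∃ g : G, K = H.map (MulAut.conj g).toMonoidHom
  iseqv :=
    { refl := fun H => ⟨1, by
        ext x
        constructor
        · intro hx
          exact ⟨x, hx, by simp⟩
        · rintro ⟨y, hy, rfl⟩
          simpa using hy⟩
      symm := by
        rintro H K ⟨g, rfl⟩
        refine ⟨g⁻¹, ?_⟩
        ext x
        simp only [Subgroup.mem_map]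
        constructor
        · intro hx
          exact ⟨g * x * g⁻¹, ⟨x, hx, by simp⟩, by simp [mul_assoc]⟩
        · rintro ⟨y, ⟨z, hz, rfl⟩, rfl⟩
          simpa [mul_assoc] using hz
      trans := by
        rintro H K L ⟨g, rfl⟩ ⟨h, rfl⟩
        refine ⟨h * g, ?_⟩
        ext x
        simp only [Subgroup.mem_map]
        constructor
        · rintro ⟨y, ⟨z, hz, rfl⟩, rfl⟩
          exact ⟨z, hz, by simp [mul_assoc]⟩
        · rintro ⟨z, hz, rfl⟩
          exact ⟨g * z * g⁻¹, ⟨z, hz, by simp⟩, by simp [mul_assoc]⟩ }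

/-- The set `Sub_G / G` of conjugacy classes of subgroups of `G`. -/
def SubCl : Type := Quotient (conjSetoid G)

end SubCl

section Order

variable {G : Type} [Group G]

/-- The conjugacy class of a subgroup. -/
def cl (H : Subgroup G) : SubCl G := Quotient.mk (conjSetoid G) H

theorem cl_eq_iff {H K : Subgroup G} :
    cl H = cl K ↔ ∃ g : G, K = H.map (MulAut.conj g).toMonoidHom :=
  Quotient.eq (r := conjSetoid G)

/-- `(H) ≤ (K)` iff `H ≤ g K g⁻¹` for some `g`. -/
instance SubCl.instLE : LE (SubCl G) where
  le a b := ∃ H K : Subgroup G, cl H = a ∧ cl K = b ∧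
    ∃ g : G, H ≤ K.map (MulAut.conj g).toMonoidHom

theorem cl_le_cl {H K : Subgroup G} :
    cl H ≤ cl K ↔ ∃ g : G, H ≤ K.map (MulAut.conj g).toMonoidHom := by
  constructor
  · rintro ⟨H', K', hH, hK, g, hg⟩
    obtain ⟨a, rfl⟩ := cl_eq_iff.1 hH
    obtain ⟨b, rfl⟩ := cl_eq_iff.1 hK
    refine ⟨a * g * b⁻¹, ?_⟩
    rintro _ ⟨x, hx, rfl⟩
    obtain ⟨y, hy, rfl⟩ := hg hx
    exact ⟨b * y * b⁻¹, ⟨y, hy, by simp⟩, by simp [mul_assoc]⟩
  · rintro ⟨g, hg⟩
    exact ⟨H, K, rfl, rfl, g, hg⟩

theorem cl_surj (a : SubCl G) : ∃ H : Subgroup G, cl H = a :=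
  Quotient.exists_rep a

variable [Finite G]

/-- The containment order on `Sub_G / G`. -/
instance SubCl.instPartialOrder : PartialOrder (SubCl G) where
  le := (· ≤ ·)
  le_refl a := by
    obtain ⟨H, rfl⟩ := cl_surj a
    exact cl_le_cl.2 ⟨1, fun x hx => ⟨x, hx, by simp⟩⟩
  le_trans a b c := by
    obtain ⟨H, rfl⟩ := cl_surj a
    obtain ⟨K, rfl⟩ := cl_surj b
    obtain ⟨L, rfl⟩ := cl_surj c
    intro h1 h2
    obtain ⟨g, hg⟩ := cl_le_cl.1 h1
    obtain ⟨h, hh⟩ := cl_le_cl.1 h2
    refine cl_le_cl.2 ⟨g * h, ?_⟩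
    intro x hx
    obtain ⟨y, hy, rfl⟩ := hg hx
    obtain ⟨z, hz, rfl⟩ := hh hy
    exact ⟨z, hz, by simp [mul_assoc]⟩
  le_antisymm a b := by
    obtain ⟨H, rfl⟩ := cl_surj a
    obtain ⟨K, rfl⟩ := cl_surj b
    intro h1 h2
    obtain ⟨g, hg⟩ := cl_le_cl.1 h1
    obtain ⟨h, hh⟩ := cl_le_cl.1 h2
    have c1 : Nat.card (K.map (MulAut.conj g).toMonoidHom : Subgroup G) = Nat.card K :=
      Nat.card_congr (K.equivMapOfInjective _ (MulAut.conj g).injective).toEquiv.symm
    have c2 : Nat.card (H.map (MulAut.conj h).toMonoidHom : Subgroup G) = Nat.card H :=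
      Nat.card_congr (H.equivMapOfInjective _ (MulAut.conj h).injective).toEquiv.symm
    have c3 : Nat.card K ≤ Nat.card H := by
      rw [← c2]
      exact Nat.card_le_card_of_injective _ (Subgroup.inclusion_injective hh)
    have e : H = K.map (MulAut.conj g).toMonoidHom := by
      apply Subgroup.eq_of_le_of_card_ge hg
      rw [c1]; exact c3
    exact (cl_eq_iff.2 ⟨g, e⟩).symm

instance SubCl.instFinite : Finite (SubCl G) := Quotient.finite _

noncomputable instance SubCl.instDecidableEq : DecidableEq (SubCl G) := Classical.decEq _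

noncomputable instance SubCl.instFintype : Fintype (SubCl G) := Fintype.ofFinite _

noncomputable instance SubCl.instLocallyFiniteOrder : LocallyFiniteOrder (SubCl G) :=
  letI : DecidableLE (SubCl G) := Classical.decRel _
  letI : DecidableLT (SubCl G) := Classical.decRel _
  Fintype.toLocallyFiniteOrder

end Order

/-- The objects of the orbit category of `G`: a subgroup `H` stands for the
transitive `G`-set `G ⧸ H`. -/
structure Orb (G : Type) [Group G] : Type where
  /-- the subgroup -/
  H : Subgroup G

/-- The orbit category: morphisms are the `G`-equivariant maps. -/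
instance Orb.instCategory (G : Type) [Group G] : Category.{0} (Orb G) where
  Hom X Y := (G ⧸ X.H) →[G] (G ⧸ Y.H)
  id X := MulActionHom.id G
  comp f g := g.comp f

/-- Rational coefficient systems: contravariant functors from the orbit category
to rational vector spaces. -/
abbrev Coef (G : Type) [Group G] := (Orb G)ᵒᵖ ⥤ ModuleCat.{0} ℚ

end Pool.V113.Gd
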