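import Pool.Agent.V113.Gd.IAm
import Pool.Agent.V113.Gd.Stmt

open CategoryTheory

namespace Pool.V113.Gd

set_option linter.unusedSectionVars false
set_option linter.unusedVariables false

section gen

variable {R : Type} [Ring R]

/-- projective dimension bound for unbundled modules -/
abbrev PD (n : ℕ) (R : Type) [Ring R] (M : Type) [AddCommGroup M] [Module R M] : Prop :=
  HasProjectiveDimensionLT (ModuleCat.of R M) n

variable {A B C : Type} [AddCommGroup A] [Module R A] [AddCommGroup B] [Module R B]
  [AddCommGroup C] [Module R C]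

theorem sesOf (f : A →ₗ[R] B) (g : B →ₗ[R] C) (hf : Function.Injective f)
    (hg : Function.Surjective g) (he : Function.Exact f g)
    (w : ModuleCat.ofHom f ≫ ModuleCat.ofHom g = 0) :
    (ShortComplex.mk (ModuleCat.ofHom f) (ModuleCat.ofHom g) w).ShortExact where
  exact := (ShortComplex.ShortExact.moduleCat_exact_iff_function_exact _).2 he
  mono_f := (ModuleCat.mono_iff_injective _).2 hf
  epi_g := (ModuleCat.epi_iff_surjective _).2 hg

theorem wOf (f : A →ₗ[R] B) (g : B →ₗ[R] C) (he : Function.Exact f g) :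
    ModuleCat.ofHom f ≫ ModuleCat.ofHom g = 0 := by
  apply ModuleCat.hom_ext
  apply LinearMap.ext
  intro x
  exact he.apply_apply_eq_zero x

theorem pd_right (n : ℕ) (f : A →ₗ[R] B) (g : B →ₗ[R] C) (hf : Function.Injective f)
    (hg : Function.Surjective g) (he : Function.Exact f g) (hA : PD n R A)
    (hB : PD (n + 1) R B) : PD (n + 1) R C :=
  (sesOf f g hf hg he (wOf f g he)).hasProjectiveDimensionLT_X₃ n hA hB

theorem pd_mid (n : ℕ) (f : A →ₗ[R] B) (g : B →ₗ[R] C) (hf : Function.Injective f)
    (hg : Function.Surjective g) (he : Function.Exact f g) (hA : PD n R A)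
    (hC : PD n R C) : PD n R B :=
  (sesOf f g hf hg he (wOf f g he)).hasProjectiveDimensionLT_X₂ n hA hC

theorem pd_proj (M : Type) [AddCommGroup M] [Module R M] (h : Module.Projective R M) :
    PD 1 R M := by
  have : Projective (ModuleCat.of R M) := (IsProjective.iff_projective M).1 h
  infer_instance

theorem pd_mono (m n : ℕ) (hmn : m ≤ n) (M : Type) [AddCommGroup M] [Module R M]
    (h : PD m R M) : PD n R M :=
  hasProjectiveDimensionLT_of_ge _ m n hmn

end gen

variable {P : Type} [PartialOrder P] [LocallyFiniteOrder P] [DecidableEq P] [Fintype P]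

theorem pd_iic (V : Type) [AddCommGroup V] [Module ℚ V] (y : P) :
    PD 1 (IncidenceAlgebra ℚ P) (Sup V (LowerSet.Iic y)) :=
  pd_proj _ (sup_projective V y)

theorem pd_bot (V : Type) [AddCommGroup V] [Module ℚ V] :
    PD 1 (IncidenceAlgebra ℚ P) (Sup V (⊥ : LowerSet P)) := by
  have : Subsingleton (Sup V (⊥ : LowerSet P)) := by
    refine ⟨fun a b => Subtype.ext ?_⟩
    funext x
    rw [a.2 x (by simp), b.2 x (by simp)]
  exact pd_proj _ inferInstance

theorem sup_le {V : Type} [AddCommGroup V] [Module ℚ V] {D D' : LowerSet P} (h : D ≤ D') :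
    Sup V D ≤ Sup V D' := fun v hv x hx => hv x (fun hh => hx (h hh))

theorem pd_two (V : Type) [AddCommGroup V] [Module ℚ V] (x0 x1 x2 : P)
    (h : LowerSet.Iic x1 ⊓ LowerSet.Iic x2 = LowerSet.Iic x0) :
    PD 2 (IncidenceAlgebra ℚ P) (Sup V (LowerSet.Iic x1 ⊔ LowerSet.Iic x2)) := by
  classical
  have h01 : LowerSet.Iic x0 ≤ LowerSet.Iic x1 := h ▸ inf_le_left
  have h02 : LowerSet.Iic x0 ≤ LowerSet.Iic x2 := h ▸ inf_le_right
  let f : Sup V (LowerSet.Iic x0) →ₗ[IncidenceAlgebra ℚ P]
      (Sup V (LowerSet.Iic x1) × Sup V (LowerSet.Iic x2)) :=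
    LinearMap.prod (Submodule.inclusion (sup_le h01)) (-(Submodule.inclusion (sup_le h02)))
  let g : (Sup V (LowerSet.Iic x1) × Sup V (LowerSet.Iic x2)) →ₗ[IncidenceAlgebra ℚ P]
      Sup V (LowerSet.Iic x1 ⊔ LowerSet.Iic x2) :=
    LinearMap.coprod (Submodule.inclusion (sup_le le_sup_left))
      (Submodule.inclusion (sup_le le_sup_right))
  refine pd_right 1 f g ?_ ?_ ?_ (pd_iic V x0) ?_
  · intro a b hab
    have := congrArg (fun z => z.1.1) hab
    exact Subtype.ext this
  · intro v
    refine ⟨⟨⟨fun z => if z ≤ x1 then v.1 z else 0, ?_⟩,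
      ⟨fun z => if z ≤ x1 then 0 else v.1 z, ?_⟩⟩, ?_⟩
    · intro z hz
      exact if_neg (by simpa using hz)
    · intro z hz
      change (if z ≤ x1 then 0 else v.1 z) = 0
      by_cases h1 : z ≤ x1
      · rw [if_pos h1]
      · rw [if_neg h1]
        apply v.2
        intro hh
        rcases LowerSet.mem_sup_iff.1 hh with h2 | h2
        · exact h1 h2
        · exact hz h2
    · apply Subtype.ext
      funext z
      change (if z ≤ x1 then v.1 z else 0) + (if z ≤ x1 then 0 else v.1 z) = v.1 z
      by_cases h1 : z ≤ x1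
      · rw [if_pos h1, if_pos h1, add_zero]
      · rw [if_neg h1, if_neg h1, zero_add]
  · intro ab
    constructor
    · intro hab
      have hab' : ab.1.1 + ab.2.1 = 0 := congrArg Subtype.val hab
      have hx : ∀ z, ab.1.1 z + ab.2.1 z = 0 := fun z => congrFun hab' z
      refine ⟨⟨ab.1.1, ?_⟩, ?_⟩
      · intro z hz
        rw [← h] at hz
        by_cases h1 : z ∈ LowerSet.Iic x1
        · have h2 : z ∉ LowerSet.Iic x2 := fun h2 => hz ⟨h1, h2⟩
          have h3 := hx z
          rw [ab.2.2 z h2, add_zero] at h3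
          exact h3
        · exact ab.1.2 z h1
      · apply Prod.ext
        · rfl
        · apply Subtype.ext
          change - ab.1.1 = ab.2.1
          exact neg_eq_of_add_eq_zero_right hab'
    · rintro ⟨c, rfl⟩
      apply Subtype.ext
      change c.1 + -c.1 = 0
      exact add_neg_cancel _
  · have p1 := sup_projective V x1
    have p2 := sup_projective V x2
    exact pd_mono 1 2 (by norm_num) _ (pd_proj _ inferInstance)

theorem eb_of_not_le (x y : P) (h : ¬ x ≤ y) : (eb x y : IncidenceAlgebra ℚ P) = 0 := by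
  classical
  ext a b hab
  rw [eb_apply, if_neg]
  · rfl
  · rintro ⟨-, -, h'⟩
    exact h h'

theorem simple_smul (S : Type) [AddCommGroup S] [Module (IncidenceAlgebra ℚ P) S] [Module ℚ S]
    [IsScalarTower ℚ (IncidenceAlgebra ℚ P) S] (y : P)
    (hS : ∀ s : S, (eb y y : IncidenceAlgebra ℚ P) • s = s) (r : IncidenceAlgebra ℚ P) (s : S) :
    r • s = r y y • s := by
  classical
  have h0 : ∀ a, a ≠ y → (eb a y : IncidenceAlgebra ℚ P) • s = 0 := by
    intro a ha
    by_cases hay : a ≤ y
    · rw [← hS ((eb a y : IncidenceAlgebra ℚ P) • s), smul_smul,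
        eb_mul_eb_ne y y a y hay (Ne.symm ha), zero_smul]
    · rw [eb_of_not_le _ _ hay, zero_smul]
  conv_lhs => rw [← hS s]
  rw [smul_smul, mul_eb r y y le_rfl, Finset.sum_smul, Finset.sum_eq_single y]
  · rw [smul_assoc, hS]
  · intro a _ ha
    rw [smul_assoc, h0 a ha, smul_zero]
  · intro hh; exact absurd (Finset.mem_univ _) hh

theorem pd_simple (S : Type) [AddCommGroup S] [Module (IncidenceAlgebra ℚ P) S] [Module ℚ S]
    [IsScalarTower ℚ (IncidenceAlgebra ℚ P) S] (y : P)
    (hS : ∀ s : S, (eb y y : IncidenceAlgebra ℚ P) • s = s)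
    (hy : PD 2 (IncidenceAlgebra ℚ P) (Sup S (LowerSet.Iio y))) :
    PD 3 (IncidenceAlgebra ℚ P) S := by
  classical
  have hle : LowerSet.Iio y ≤ LowerSet.Iic y := fun z (hz : z < y) => (le_of_lt hz : z ≤ y)
  let f : Sup S (LowerSet.Iio y) →ₗ[IncidenceAlgebra ℚ P] Sup S (LowerSet.Iic y) :=
    Submodule.inclusion (sup_le hle)
  let g : Sup S (LowerSet.Iic y) →ₗ[IncidenceAlgebra ℚ P] S :=
    { toFun := fun w => w.1 y
      map_add' := fun _ _ => rfl
      map_smul' := by
        intro r w
        change ∑ z : P, r y z • w.1 z = r • w.1 y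
        rw [simple_smul S y hS, Finset.sum_eq_single y]
        · intro z _ hz
          by_cases hyz : y ≤ z
          · have : w.1 z = 0 := w.2 z (fun (hh : z ≤ y) => hz (le_antisymm hh hyz))
            rw [this, smul_zero]
          · rw [IncidenceAlgebra.apply_eq_zero_of_not_le hyz, zero_smul]
        · intro hh; exact absurd (Finset.mem_univ _) hh }
  refine pd_right 2 f g (Submodule.inclusion_injective _) ?_ ?_ hy
    (pd_mono 1 3 (by norm_num) _ (pd_iic S y))
  · intro s
    refine ⟨⟨dl y s, dl_mem _ _ (by simp) s⟩, ?_⟩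
    change dl y s y = s
    rw [dl_apply, if_pos rfl]
  · intro w
    constructor
    · intro hw
      have hw' : w.1 y = 0 := hw
      refine ⟨⟨w.1, ?_⟩, rfl⟩
      intro z hz
      by_cases hzy : z ≤ y
      · have : z = y := by
          by_contra hne
          exact hz (lt_of_le_of_ne hzy hne)
        rw [this, hw']
      · exact w.2 z hzy
    · rintro ⟨c, rfl⟩
      exact c.2 y (fun (hh : y < y) => lt_irrefl _ hh)

theorem eb_smul_smul (M : Type) [AddCommGroup M] [Module (IncidenceAlgebra ℚ P) M] [Module ℚ M]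
    [IsScalarTower ℚ (IncidenceAlgebra ℚ P) M] (y : P) (r : IncidenceAlgebra ℚ P) (m : M)
    (h : ∀ x, y ≤ x → (eb x x : IncidenceAlgebra ℚ P) • m = 0) :
    (eb y y : IncidenceAlgebra ℚ P) • r • m = 0 := by
  classical
  have e1 : m = ∑ x : P, (eb x x : IncidenceAlgebra ℚ P) • m := by
    rw [← Finset.sum_smul, sum_eb, one_smul]
  have e2 : ∀ x : P, (eb y y : IncidenceAlgebra ℚ P) • r • (eb x x : IncidenceAlgebra ℚ P) • m = 0 := by
    intro x
    by_cases hyx : y ≤ x
    · rw [h x hyx, smul_zero, smul_zero]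
    · rw [smul_smul, smul_smul, mul_assoc, mul_eb r x x le_rfl, Finset.mul_sum, Finset.sum_smul]
      apply Finset.sum_eq_zero
      intro a _
      rw [mul_smul_comm]
      by_cases hax : a ≤ x
      · have hya : y ≠ a := by
          rintro rfl
          exact hyx hax
        rw [eb_mul_eb_ne y y a x hax hya, smul_zero, zero_smul]
      · rw [eb_of_not_le _ _ hax, mul_zero, smul_zero, zero_smul]
  rw [e1, Finset.smul_sum, Finset.smul_sum]
  exact Finset.sum_eq_zero fun x _ => e2 x

theorem pd_all (hP : ∀ (V : Type) [AddCommGroup V] [Module ℚ V] (y : P),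
      PD 2 (IncidenceAlgebra ℚ P) (Sup V (LowerSet.Iio y))) :
    ∀ (U : Finset P) (M : Type) [AddCommGroup M] [Module (IncidenceAlgebra ℚ P) M] [Module ℚ M]
      [IsScalarTower ℚ (IncidenceAlgebra ℚ P) M],
      (∀ x, x ∉ U → ∀ m : M, (eb x x : IncidenceAlgebra ℚ P) • m = 0) →
      PD 3 (IncidenceAlgebra ℚ P) M := by
  classical
  intro U
  induction U using Finset.strongInduction with
  | H U ih =>
    intro M _ _ _ _ hM
    by_cases hU : U.Nonempty
    · obtain ⟨y, hy⟩ := U.exists_maximal hU
      let M' : Submodule (IncidenceAlgebra ℚ P) M :=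
        { carrier := {m | (eb y y : IncidenceAlgebra ℚ P) • m = 0}
          add_mem' := by
            intro a b (ha : (eb y y : IncidenceAlgebra ℚ P) • a = 0)
              (hb : (eb y y : IncidenceAlgebra ℚ P) • b = 0)
            change (eb y y : IncidenceAlgebra ℚ P) • (a + b) = 0
            rw [smul_add, ha, hb, add_zero]
          zero_mem' := smul_zero _
          smul_mem' := by
            intro r m (hm : (eb y y : IncidenceAlgebra ℚ P) • m = 0)
            apply eb_smul_smul M y r m
            intro x hyx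
            by_cases hxU : x ∈ U
            · have : x ≤ y := hy.2 hxU hyx
              rw [le_antisymm this hyx, hm]
            · exact hM x hxU m }
      have h1 : PD 3 (IncidenceAlgebra ℚ P) M' := by
        apply ih (U.erase y) (Finset.erase_ssubset hy.1)
        intro x hx m
        apply Subtype.ext
        change (eb x x : IncidenceAlgebra ℚ P) • m.1 = 0
        by_cases hxy : x = y
        · rw [hxy]
          exact m.2
        · exact hM x (fun hh => hx (Finset.mem_erase.2 ⟨hxy, hh⟩)) m.1
      have h2 : PD 3 (IncidenceAlgebra ℚ P) (M ⧸ M') := by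
        apply pd_simple (M ⧸ M') y _ (hP _ y)
        intro q
        obtain ⟨m, rfl⟩ := Submodule.Quotient.mk_surjective M' q
        rw [← Submodule.Quotient.mk_smul]
        apply (Submodule.Quotient.eq M').2
        change (eb y y : IncidenceAlgebra ℚ P) • ((eb y y : IncidenceAlgebra ℚ P) • m - m) = 0
        rw [smul_sub, smul_smul, eb_mul_eb y y y le_rfl le_rfl, sub_self]
      exact pd_mid 3 M'.subtype M'.mkQ (Submodule.injective_subtype _)
        (Submodule.mkQ_surjective _) (by
          intro m
          rw [Submodule.mkQ_apply, Submodule.Quotient.mk_eq_zero]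
          constructor
          · intro hm
            exact ⟨⟨m, hm⟩, rfl⟩
          · rintro ⟨m', rfl⟩
            exact m'.2) h1 h2
    · have hU' : U = ∅ := Finset.not_nonempty_iff_eq_empty.1 hU
      have : Subsingleton M := by
        refine ⟨fun a b => ?_⟩
        have hz : ∀ m : M, m = 0 := by
          intro m
          have e1 : m = ∑ x : P, (eb x x : IncidenceAlgebra ℚ P) • m := by
            rw [← Finset.sum_smul, sum_eb, one_smul]
          rw [e1]
          exact Finset.sum_eq_zero fun x _ => hM x (by simp [hU']) m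
        rw [hz a, hz b]
      exact pd_mono 1 3 (by norm_num) _ (pd_proj M inferInstance)

/-- The shape of the lower intervals that gives global dimension at most two. -/
def Shape (P : Type) [PartialOrder P] : Prop := ∀ y : P,
  (∀ x : P, ¬ x < y) ∨ (∃ x' : P, ∀ x, x < y ↔ x ≤ x') ∨
  (∃ x0 x1 x2 : P, (∀ x, x < y ↔ (x ≤ x1 ∨ x ≤ x2)) ∧ (∀ x, (x ≤ x1 ∧ x ≤ x2) ↔ x ≤ x0))

theorem gldim_le (hP : Shape P) :
    gldim (ModuleCat.{0} (IncidenceAlgebra ℚ P)) ≤ 2 := by
  classical
  have key : ∀ (V : Type) [AddCommGroup V] [Module ℚ V] (y : P),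
      PD 2 (IncidenceAlgebra ℚ P) (Sup V (LowerSet.Iio y)) := by
    intro V _ _ y
    rcases hP y with h | ⟨x', h⟩ | ⟨x0, x1, x2, h1, h2⟩
    · have e : LowerSet.Iio y = ⊥ := by
        ext x
        constructor
        · intro hx
          exact absurd hx (h x)
        · intro hx
          exact absurd hx (by simp)
      rw [e]
      exact pd_mono 1 2 (by norm_num) _ (pd_bot V)
    · have e : LowerSet.Iio y = LowerSet.Iic x' := by
        ext x
        exact h x
      rw [e]
      exact pd_mono 1 2 (by norm_num) _ (pd_iic V x')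
    · have e : LowerSet.Iio y = LowerSet.Iic x1 ⊔ LowerSet.Iic x2 := by
        ext x
        rw [SetLike.mem_coe, SetLike.mem_coe, LowerSet.mem_sup_iff]
        exact h1 x
      rw [e]
      apply pd_two V x0 x1 x2
      ext x
      rw [SetLike.mem_coe, LowerSet.mem_inf_iff]
      exact h2 x
  refine iSup_le fun X => ?_
  have h3 : HasProjectiveDimensionLE X 2 := by
    let _ : Module ℚ X := ModuleCat.moduleOfAlgebraModule (k := ℚ) X
    have : IsScalarTower ℚ (IncidenceAlgebra ℚ P) X :=
      ModuleCat.isScalarTower_of_algebra_moduleCat (k := ℚ) X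
    exact pd_all key Finset.univ X (fun x hx => absurd (Finset.mem_univ x) hx)
  exact (projectiveDimension_le_iff X 2).2 h3

end Pool.V113.Gd
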