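import Pool.Agent.V113.Gd.Low

open CategoryTheory Opposite Limits

namespace Pool.V113.Gd

variable {G : Type} [Group G]

variable (D : Dat G) (E : Subgroup G) (hE : E.Normal) (hDE : ∀ w, D.ka w ≤ E)

/-- Constructor for points. -/
def Dat.mk' {X : Orb G} (w : D.Om) (h : X.H ≤ D.ka w) : D.Pt X := ⟨w, h⟩

theorem mapDomain_diff {α β : Type} (f : α → β) (a b : α) :
    Finsupp.mapDomain f (Finsupp.single a (1 : ℚ) - Finsupp.single b 1) =
      Finsupp.single (f a) 1 - Finsupp.single (f b) 1 := by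
  rw [sub_eq_add_neg, Finsupp.mapDomain_add, ← Finsupp.single_neg, Finsupp.mapDomain_single,
    Finsupp.mapDomain_single, Finsupp.single_neg, ← sub_eq_add_neg]

theorem se1 {A : Type 1} [Category.{0} A] [Abelian A] {X Y : A} (f : X ⟶ Y) :
    (ShortComplex.mk (Abelian.image.ι f) (cokernel.π f)
      (kernel.condition (cokernel.π f))).ShortExact where
  exact := ShortComplex.exact_kernel (cokernel.π f)

theorem se2 {A : Type 1} [Category.{0} A] [Abelian A] {X Y : A} (f : X ⟶ Y)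
    (w : kernel.ι f ≫ Abelian.factorThruImage f = 0) :
    (ShortComplex.mk (kernel.ι f) (Abelian.factorThruImage f) w).ShortExact where
  exact := by
    apply ShortComplex.exact_of_f_is_kernel
    exact isKernelOfComp (Abelian.image.ι f) f (kernelIsKernel f) w (Abelian.image.fac f)

theorem pd_ker {A : Type 1} [Category.{0} A] [Abelian A] {X Y : A} (f : X ⟶ Y)
    (hX : Projective X) (hY : Projective Y) (h : HasProjectiveDimensionLT (cokernel f) 3) :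
    Projective (kernel f) := by
  have w : kernel.ι f ≫ Abelian.factorThruImage f = 0 := by
    rw [← cancel_mono (Abelian.image.ι f)]
    simp
  have h1 : HasProjectiveDimensionLT (Abelian.image f) 2 :=
    ((se1 f).hasProjectiveDimensionLT_X₃_iff 1 hY).1 h
  have h2 : HasProjectiveDimensionLT (kernel f) 1 :=
    ((se2 f w).hasProjectiveDimensionLT_X₃_iff 0 hX).1 h1
  infer_instance

theorem ker_elt (X : Orb G) (x : D.Pt X →₀ ℚ)
    (hx : Finsupp.mapDomain (augPt D E hE hDE X) x = 0) :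
    ∃ k : (kernel (augm D E hE hDE)).obj (op X),
      ((kernel.ι (augm D E hE hDE)).app (op X)).hom k = x := by
  have h1 := (ShortComplex.exact_kernel (augm D E hE hDE)).map
    ((evaluation (Orb G)ᵒᵖ (ModuleCat.{0} ℚ)).obj (op X))
  rw [ShortComplex.moduleCat_exact_iff] at h1
  exact h1 x hx

theorem ker_inj (X : Orb G) (k k' : (kernel (augm D E hE hDE)).obj (op X))
    (h : ((kernel.ι (augm D E hE hDE)).app (op X)).hom k =
      ((kernel.ι (augm D E hE hDE)).app (op X)).hom k') : k = k' := by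
  have : Mono ((kernel.ι (augm D E hE hDE)).app (op X)) := inferInstance
  exact (ModuleCat.mono_iff_injective _).1 this h

theorem supp_pull {X Y : Orb G} (D' : Dat G)
    (h : ∀ x ∈ X.H, (1 : G)⁻¹ * x * 1 ∈ Y.H) (v : D'.Pt Y →₀ ℚ) (w : D'.Pt X)
    (hw : Finsupp.mapDomain (Dat.pull (Orb.mk' X Y 1 h)) v w ≠ 0) : Y.H ≤ D'.ka w.1 := by
  classical
  have h1 : w ∈ (Finsupp.mapDomain (Dat.pull (Orb.mk' X Y 1 h)) v).support :=
    Finsupp.mem_support_iff.2 hw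
  have h2 := Finsupp.mapDomain_support h1
  obtain ⟨u, -, hu⟩ := Finset.mem_image.1 h2
  rw [Dat.pull_mk] at hu
  have h3 : w.1 = (1 : G) • u.1 := (congrArg Subtype.val hu).symm
  rw [h3, one_smul]
  exact u.2

theorem del_diag (X : Orb G) (v : D.sq.Pt X →₀ ℚ)
    (hv : ∀ w : D.sq.Pt X, w.1.1 ≠ w.1.2 → v w = 0) :
    ((del D).app (op X)).hom v = 0 := by
  classical
  have h : Finsupp.mapDomain (fun w : D.sq.Pt X =>
        (⟨w.1.1, w.2.trans inf_le_left⟩ : D.Pt X)) v =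
      Finsupp.mapDomain (fun w : D.sq.Pt X =>
        (⟨w.1.2, w.2.trans inf_le_right⟩ : D.Pt X)) v := by
    apply Finsupp.mapDomain_congr
    intro w hw
    apply Subtype.ext
    by_contra hne
    exact (Finsupp.mem_support_iff.1 hw) (hv w hne)
  exact sub_eq_zero.2 h

/-- The element `[i] - [j]` of the kernel at `i ∩ j`, and its restriction. -/
theorem pair_elt (s : kernel (augm D E hE hDE) ⟶ D.sq.F) (i j : D.Om) :
    ∃ k : (kernel (augm D E hE hDE)).obj (op (⟨⊥⟩ : Orb G)),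
      ((kernel.ι (augm D E hE hDE)).app (op ⟨⊥⟩)).hom k =
        Finsupp.single (D.mk' (X := ⟨⊥⟩) i bot_le) (1 : ℚ) -
          Finsupp.single (D.mk' (X := ⟨⊥⟩) j bot_le) 1 ∧
      ∀ w : D.sq.Pt ⟨⊥⟩, (show D.sq.Pt ⟨⊥⟩ →₀ ℚ from (s.app (op ⟨⊥⟩)).hom k) w ≠ 0 →
        D.ka i ⊓ D.ka j ≤ D.ka w.1.1 ⊓ D.ka w.1.2 := by
  classical
  let Y : Orb G := ⟨D.ka i ⊓ D.ka j⟩
  have hXY : ∀ x ∈ (⟨⊥⟩ : Orb G).H, (1 : G)⁻¹ * x * 1 ∈ Y.H := by
    intro x hx
    have : x = 1 := hx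
    subst this
    simp
  obtain ⟨k, hk⟩ := ker_elt D E hE hDE Y
    (Finsupp.single (D.mk' (X := Y) i inf_le_left) (1 : ℚ) -
      Finsupp.single (D.mk' (X := Y) j inf_le_right) 1) (by
      rw [mapDomain_diff, sub_eq_zero]
      rfl)
  refine ⟨((kernel (augm D E hE hDE)).map (Orb.mk' ⟨⊥⟩ Y 1 hXY).op).hom k, ?_, ?_⟩
  · have h1 := congrArg (fun q => ModuleCat.Hom.hom q k)
      ((kernel.ι (augm D E hE hDE)).naturality (Orb.mk' ⟨⊥⟩ Y 1 hXY).op)
    simp only [ModuleCat.hom_comp, LinearMap.comp_apply] at h1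
    rw [h1, hk]
    refine (mapDomain_diff (Dat.pull (Orb.mk' ⟨⊥⟩ Y 1 hXY)) _ _).trans ?_
    have hp : ∀ (u : D.Om) (hu : Y.H ≤ D.ka u), Dat.pull (Orb.mk' ⟨⊥⟩ Y 1 hXY) (D.mk' u hu) =
        D.mk' (X := ⟨⊥⟩) u bot_le := by
      intro u hu
      refine (Dat.pull_mk (D := D) 1 hXY (D.mk' u hu)).trans ?_
      exact Subtype.ext (one_smul G u)
    rw [hp, hp]
    rfl
  · intro w hw
    have h1 := congrArg (fun q => ModuleCat.Hom.hom q k)
      (s.naturality (Orb.mk' ⟨⊥⟩ Y 1 hXY).op)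
    simp only [ModuleCat.hom_comp, LinearMap.comp_apply] at h1
    rw [h1] at hw
    exact supp_pull D.sq hXY _ w hw

theorem lower [Finite G] (i1 i2 i3 : D.Om) (h12 : i1 ≠ i2)
    (gen : ∀ w : D.Om × D.Om, w.1 ≠ w.2 → D.ka i1 ⊓ D.ka i2 ≤ D.ka w.1 ⊓ D.ka w.2 →
      ¬ (D.ka i2 ⊓ D.ka i3 ≤ D.ka w.1 ⊓ D.ka w.2) ∧
      ¬ (D.ka i3 ⊓ D.ka i1 ≤ D.ka w.1 ⊓ D.ka w.2)) :
    ¬ HasProjectiveDimensionLT (cokernel (augm D E hE hDE)) 3 := by
  classical
  intro h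
  have hP : Projective (kernel (augm D E hE hDE)) :=
    pd_ker (augm D E hE hDE) D.projective (Dat.pt E hE).projective h
  let p := kernel.lift (augm D E hE hDE) (del D) (del_augm D E hE hDE)
  have hp : Epi p := (ShortComplex.exact_iff_epi_kernel_lift _).1 (exact_del D E hE hDE)
  let s := Projective.factorThru (𝟙 _) p
  have hs : s ≫ p = 𝟙 _ := Projective.factorThru_comp _ _
  have hι : s ≫ del D = kernel.ι (augm D E hE hDE) := by
    rw [← kernel.lift_ι (augm D E hE hDE) (del D) (del_augm D E hE hDE), ← Category.assoc]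
    change (s ≫ p) ≫ _ = _
    rw [hs, Category.id_comp]
  obtain ⟨k12, hk12, hs12⟩ := pair_elt D E hE hDE s i1 i2
  obtain ⟨k23, hk23, hs23⟩ := pair_elt D E hE hDE s i2 i3
  obtain ⟨k31, hk31, hs31⟩ := pair_elt D E hE hDE s i3 i1
  have hsum : k12 + k23 + k31 = 0 := by
    apply ker_inj D E hE hDE
    rw [map_add, map_add, hk12, hk23, hk31, map_zero]
    abel
  have hsum2 : (s.app (op ⟨⊥⟩)).hom k12 + (s.app (op ⟨⊥⟩)).hom k23 +
      (s.app (op ⟨⊥⟩)).hom k31 = 0 := by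
    rw [← map_add, ← map_add, hsum, map_zero]
  have hz : ∀ w : D.sq.Pt ⟨⊥⟩, w.1.1 ≠ w.1.2 →
      (show D.sq.Pt ⟨⊥⟩ →₀ ℚ from (s.app (op ⟨⊥⟩)).hom k12) w = 0 := by
    intro w hw
    by_contra hne
    obtain ⟨g1, g2⟩ := gen w.1 hw (hs12 w hne)
    have e2 : (show D.sq.Pt ⟨⊥⟩ →₀ ℚ from (s.app (op ⟨⊥⟩)).hom k23) w = 0 := by
      by_contra hh
      exact g1 (hs23 w hh)
    have e3 : (show D.sq.Pt ⟨⊥⟩ →₀ ℚ from (s.app (op ⟨⊥⟩)).hom k31) w = 0 := by
      by_contra hh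
      exact g2 (hs31 w hh)
    have e4 : (show D.sq.Pt ⟨⊥⟩ →₀ ℚ from (s.app (op ⟨⊥⟩)).hom k12) w +
      (show D.sq.Pt ⟨⊥⟩ →₀ ℚ from (s.app (op ⟨⊥⟩)).hom k23) w +
      (show D.sq.Pt ⟨⊥⟩ →₀ ℚ from (s.app (op ⟨⊥⟩)).hom k31) w = 0 :=
      DFunLike.congr_fun (F := D.sq.Pt ⟨⊥⟩ →₀ ℚ) hsum2 w
    rw [e2, e3, add_zero, add_zero] at e4
    exact hne e4
  have hd := del_diag D ⟨⊥⟩ _ hz
  have hd2 : ((kernel.ι (augm D E hE hDE)).app (op ⟨⊥⟩)).hom k12 = 0 := by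
    rw [← hι]
    exact hd
  rw [hk12] at hd2
  have hd3 : Finsupp.single (D.mk' (X := ⟨⊥⟩) i1 bot_le) (1 : ℚ) =
      Finsupp.single (D.mk' (X := ⟨⊥⟩) i2 bot_le) 1 := sub_eq_zero.1 hd2
  have hd4 := Finsupp.single_left_injective (one_ne_zero) hd3
  exact h12 (congrArg Subtype.val hd4)

end Pool.V113.Gd
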