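import Pool.Agent.V113.Gd.Grp
import Pool.Agent.V113.Gd.IAg
import Pool.Agent.V113.Gd.LowB

open CategoryTheory

namespace Pool.V113.Gd

set_option maxRecDepth 100000
set_option linter.unusedSimpArgs false
set_option linter.unusedVariables false

theorem cl_le_of {H K : Subgroup Gp} (g : Gp) (h : ∀ x ∈ H, g * x * g⁻¹ ∈ K) :
    cl H ≤ cl K := by
  refine cl_le_cl.2 ⟨g⁻¹, fun x hx => ⟨g * x * g⁻¹, h x hx, ?_⟩⟩
  simp [mul_assoc]

theorem cl_mono {H K : Subgroup Gp} (h : H ≤ K) : cl H ≤ cl K :=
  cl_le_of 1 (fun x hx => by simpa using h hx)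

theorem card_map' (K : Subgroup Gp) (g : Gp) :
    Nat.card (K.map (MulAut.conj g).toMonoidHom : Subgroup Gp) = Nat.card K :=
  Nat.card_congr (K.equivMapOfInjective _ (MulAut.conj g).injective).toEquiv.symm

theorem card_dvd {H K : Subgroup Gp} (h : cl H ≤ cl K) : Nat.card H ∣ Nat.card K := by
  obtain ⟨g, hg⟩ := cl_le_cl.1 h
  rw [← card_map' K g]
  exact Subgroup.card_dvd_of_le hg

theorem mulk : ∀ k : ZMod 7, k ≠ 0 → ∀ l : ZMod 7, ∃ m : ZMod 7, m * k = l := by decide

theorem pow_k (g : Gp) (n : ℕ) : (g ^ n).k = n * g.k := by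
  induction n with
  | zero => simp [Gp.one_k]
  | succ n ih =>
    rw [pow_succ, Gp.mul_k, ih]
    push_cast
    ring

theorem exists_pow (g : Gp) (hg : g.k ≠ 0) (l : ZMod 7) : ∃ n : ℕ, (g ^ n).k = l := by
  obtain ⟨m, hm⟩ := mulk g.k hg l
  refine ⟨m.val, ?_⟩
  rw [pow_k, ZMod.natCast_zmod_val, hm]

theorem plane_cover : ∀ (i : ZMod 7) (c v : V8), ¬ plane i c → ¬ plane i v →
    plane i (v + c) := by decide

theorem six_E (K : Subgroup Gp) (hK : K ≤ sE) :
    cl K = cl ⊥ ∨ cl K = cl sL ∨ cl K = cl (sA 0) ∨ cl K = cl sE := by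
  have hform : ∀ x ∈ K, x = ⟨x.v, 0⟩ := fun x hx => Gp.ext' rfl (hK hx)
  by_cases h0 : K = ⊥
  · left; rw [h0]
  right
  obtain ⟨a, haK, ha1⟩ := K.ne_bot_iff_exists_ne_one.1 h0 |>.elim
    (fun a ha => (⟨a.1, a.2, fun h => ha (Subtype.ext h)⟩ : ∃ a : Gp, a ∈ K ∧ a ≠ 1))
  have hav : a.v ≠ 0 := fun h => ha1 (Gp.ext' h (hK haK))
  by_cases h1 : ∀ x ∈ K, x.v = 0 ∨ x.v = a.v
  · left
    obtain ⟨j, hj⟩ := act_trans a.v x0 hav (by decide)
    apply le_antisymm
    · apply cl_le_of ⟨0, j⟩
      intro x hx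
      rw [conjE _ _ (hK hx)]
      refine ⟨rfl, ?_⟩
      change act j x.v = 0 ∨ act j x.v = x0
      rcases h1 x hx with h | h
      · left; rw [h, act_zero]
      · right; rw [h, hj]
    · apply cl_le_of ⟨0, -j⟩
      intro x hx
      rw [conjE _ _ hx.1]
      change (⟨act (-j) x.v, 0⟩ : Gp) ∈ K
      rcases hx.2 with h | h
      · rw [h, act_zero]; exact K.one_mem
      · rw [h, ← hj, act_act, neg_add_cancel, act_zero']
        rw [← hform a haK]
        exact haK
  right
  push Not at h1
  obtain ⟨b, hbK, hb0, hba⟩ := h1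
  obtain ⟨i, hi⟩ := plane_exists a.v b.v hav hb0 (Ne.symm hba)
  have hle : sA i ≤ K := by
    intro x hx
    have hx' : x = ⟨x.v, 0⟩ := Gp.ext' rfl hx.1
    rcases hi x.v hx.2 with h | h | h | h
    · rw [hx', h]; exact K.one_mem
    · rw [hx', h, ← hform a haK]; exact haK
    · rw [hx', h, ← hform b hbK]; exact hbK
    · have e : (⟨a.v + b.v, 0⟩ : Gp) = a * b := by
        apply Gp.ext'
        · rw [Gp.mul_v, show a.k = 0 from hK haK, act_zero']
        · rw [Gp.mul_k, show a.k = 0 from hK haK, show b.k = 0 from hK hbK, add_zero]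
      rw [hx', h, e]
      exact K.mul_mem haK hbK
  by_cases h2 : K ≤ sA i
  · left
    have hKi : K = sA i := le_antisymm h2 hle
    rw [hKi]
    apply le_antisymm
    · apply cl_le_of ⟨0, -i⟩
      intro x hx
      rw [conjE _ _ hx.1]
      refine ⟨rfl, ?_⟩
      have := plane_act i (-i) x.v hx.2
      rw [neg_add_cancel] at this
      exact this
    · apply cl_le_of ⟨0, i⟩
      intro x hx
      rw [conjE _ _ hx.1]
      refine ⟨rfl, ?_⟩
      have := plane_act 0 i x.v hx.2
      rw [add_zero] at this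
      exact this
  · right
    have h3 : K = sE := by
      apply le_antisymm hK
      intro x hx
      obtain ⟨c, hcK, hc⟩ := Set.not_subset.1 h2
      have hcp : ¬ plane i c.v := fun h => hc ⟨hK hcK, h⟩
      by_cases hxp : plane i x.v
      · exact hle ⟨hx, hxp⟩
      · have h4 : (⟨x.v + c.v, 0⟩ : Gp) ∈ K := hle ⟨rfl, plane_cover i c.v x.v hcp hxp⟩
        have e : x = ⟨x.v + c.v, 0⟩ * c := by
          apply Gp.ext'
          · change x.v = x.v + c.v + act 0 c.v
            rw [act_zero', add_assoc, add_self8, add_zero]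
          · rw [Gp.mul_k, show c.k = 0 from hK hcK, add_zero]
            exact hx
        rw [e]
        exact K.mul_mem h4 hcK
    rw [h3]

theorem six_top (K : Subgroup Gp) (g : Gp) (hg : g ∈ K) (hgk : g.k ≠ 0) (w : Gp)
    (hw : w ∈ K) (hwk : w.k = 0) (hwv : w.v ≠ 0) : K = ⊤ := by
  have h1 : ∀ v : V8, (⟨v, 0⟩ : Gp) ∈ K := by
    intro v
    by_cases hv : v = 0
    · rw [hv]; exact K.one_mem
    obtain ⟨j, hj⟩ := act_trans w.v v hwv hv
    obtain ⟨n, hn⟩ := exists_pow g hgk j
    have := K.mul_mem (K.mul_mem (K.pow_mem hg n) hw) (K.inv_mem (K.pow_mem hg n))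
    rw [conjE _ _ hwk, hn, hj] at this
    exact this
  apply top_le_iff.1
  intro x _
  obtain ⟨n, hn⟩ := exists_pow g hgk x.k
  have e : x = ⟨x.v + (g ^ n).v, 0⟩ * g ^ n := by
    apply Gp.ext'
    · change x.v = x.v + (g ^ n).v + act 0 (g ^ n).v
      rw [act_zero', add_assoc, add_self8, add_zero]
    · rw [Gp.mul_k, hn, zero_add]
  rw [e]
  exact K.mul_mem (h1 _) (K.pow_mem hg n)

theorem six_C (K : Subgroup Gp) (g : Gp) (hg : g ∈ K) (hgk : g.k ≠ 0)
    (h : ∀ w ∈ K, w.k = 0 → w.v = 0) : cl K = cl sC := by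
  obtain ⟨u, hu⟩ := act_surj g.k hgk g.v
  let t : Gp := ⟨u, 0⟩
  have ht : t⁻¹ = t := by
    apply Gp.ext'
    · rw [Gp.inv_v]
      change act (-0) u = u
      rw [neg_zero, act_zero']
    · rw [Gp.inv_k]
      exact neg_zero
  have hgt : t * g * t⁻¹ = ⟨0, g.k⟩ := by
    rw [ht]
    apply Gp.ext'
    · change (u + act 0 g.v) + act (0 + g.k) u = 0
      rw [act_zero', zero_add, ← hu, add_assoc, add_assoc, add_self8, add_zero, add_self8]
    · change 0 + g.k + 0 = g.k
      rw [zero_add, add_zero]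
  have hpow : ∀ n : ℕ, t * g ^ n * t⁻¹ = ⟨0, (g ^ n).k⟩ := by
    intro n
    have h1 : t * g ^ n * t⁻¹ = (t * g * t⁻¹) ^ n := by rw [conj_pow]
    have h2 : ∀ m : ℕ, ((⟨0, g.k⟩ : Gp) ^ m).v = 0 := by
      intro m
      exact sC.pow_mem (show (⟨0, g.k⟩ : Gp) ∈ sC from rfl) m
    apply Gp.ext'
    · rw [h1, hgt, h2]
    · rw [Gp.mul_k, Gp.mul_k, ht]
      change 0 + (g ^ n).k + 0 = _
      rw [zero_add, add_zero]
  apply le_antisymm
  · apply cl_le_of t
    intro x hx
    obtain ⟨n, hn⟩ := exists_pow g hgk x.k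
    have h1 : x * (g ^ n)⁻¹ ∈ K := K.mul_mem hx (K.inv_mem (K.pow_mem hg n))
    have h2 : (x * (g ^ n)⁻¹).k = 0 := by
      rw [Gp.mul_k, Gp.inv_k, hn, add_neg_cancel]
    have h3 : x * (g ^ n)⁻¹ = 1 := Gp.ext' (h _ h1 h2) h2
    have h4 : x = g ^ n := mul_inv_eq_one.1 h3
    rw [h4, hpow]
    rfl
  · apply cl_le_of t⁻¹
    intro x hx
    obtain ⟨n, hn⟩ := exists_pow g hgk x.k
    have h5 : x = t * g ^ n * t⁻¹ := by
      rw [hpow, hn]
      exact Gp.ext' hx rfl
    rw [h5]
    have : t⁻¹ * (t * g ^ n * t⁻¹) * t⁻¹⁻¹ = g ^ n := by group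
    rw [this]
    exact K.pow_mem hg n

theorem six (x : SubCl Gp) :
    x = cl ⊥ ∨ x = cl sL ∨ x = cl (sA 0) ∨ x = cl sE ∨ x = cl sC ∨ x = cl ⊤ := by
  obtain ⟨K, rfl⟩ := cl_surj x
  by_cases hK : K ≤ sE
  · rcases six_E K hK with h | h | h | h
    · left; exact h
    · right; left; exact h
    · right; right; left; exact h
    · right; right; right; left; exact h
  · obtain ⟨g, hg, hgE⟩ := Set.not_subset.1 hK
    have hgk : g.k ≠ 0 := hgE
    by_cases h : ∀ w ∈ K, w.k = 0 → w.v = 0
    · right; right; right; right; left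
      exact six_C K g hg hgk h
    · push Not at h
      obtain ⟨w, hw, hwk, hwv⟩ := h
      right; right; right; right; right
      rw [six_top K g hg hgk w hw hwk hwv]

theorem card_bot' : Nat.card (⊥ : Subgroup Gp) = 1 := Subgroup.card_bot

theorem le_L : cl (⊥ : Subgroup Gp) ≤ cl sL := cl_mono bot_le

theorem le_A : cl sL ≤ cl (sA 0) := by
  apply cl_mono
  intro x hx
  refine ⟨hx.1, ?_⟩
  rcases hx.2 with h | h
  · rw [h]; exact plane_zero 0
  · rw [h]; decide

theorem le_E : cl (sA 0) ≤ cl sE := cl_mono (fun x hx => hx.1)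

theorem le_C : cl (⊥ : Subgroup Gp) ≤ cl sC := cl_mono bot_le

theorem le_T (K : Subgroup Gp) : cl K ≤ cl ⊤ := cl_mono le_top

theorem lt_of_card {H K : Subgroup Gp} (h : cl H ≤ cl K) (hc : Nat.card H < Nat.card K) :
    cl H < cl K := by
  refine lt_of_le_of_ne h (fun e => ?_)
  have h1 := card_dvd e.ge
  have h2 := Nat.le_of_dvd (Nat.card_pos) h1
  omega

theorem not_le_of_card {H K : Subgroup Gp} (h : ¬ Nat.card H ∣ Nat.card K) : ¬ cl H ≤ cl K :=
  fun hh => h (card_dvd hh)

theorem shape : Shape (SubCl Gp) := by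
  have cB := card_bot'
  have cL := card_L
  have cA := card_A
  have cE := card_E
  have cC := card_C
  have cG := card_G
  intro y
  rcases six y with rfl | rfl | rfl | rfl | rfl | rfl
  · left
    intro x hx
    rcases six x with rfl | rfl | rfl | rfl | rfl | rfl
    · exact lt_irrefl _ hx
    all_goals
      refine not_le_of_card ?_ hx.le
      simp only [cB, cL, cA, cE, cC, cG]
      norm_num
  · right; left
    refine ⟨cl ⊥, fun x => ?_⟩
    constructor
    · intro hx
      rcases six x with rfl | rfl | rfl | rfl | rfl | rfl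
      · exact le_rfl
      · exact absurd hx (lt_irrefl _)
      all_goals
        refine absurd hx.le (not_le_of_card ?_)
        simp only [cB, cL, cA, cE, cC, cG]
        norm_num
    · intro hx
      exact lt_of_le_of_lt hx (lt_of_card le_L (by rw [cB, cL]; norm_num))
  · right; left
    refine ⟨cl sL, fun x => ?_⟩
    constructor
    · intro hx
      rcases six x with rfl | rfl | rfl | rfl | rfl | rfl
      · exact le_L
      · exact le_rfl
      · exact absurd hx (lt_irrefl _)
      all_goals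
        refine absurd hx.le (not_le_of_card ?_)
        simp only [cB, cL, cA, cE, cC, cG]
        norm_num
    · intro hx
      exact lt_of_le_of_lt hx (lt_of_card le_A (by rw [cL, cA]; norm_num))
  · right; left
    refine ⟨cl (sA 0), fun x => ?_⟩
    constructor
    · intro hx
      rcases six x with rfl | rfl | rfl | rfl | rfl | rfl
      · exact le_L.trans le_A
      · exact le_A
      · exact le_rfl
      · exact absurd hx (lt_irrefl _)
      all_goals
        refine absurd hx.le (not_le_of_card ?_)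
        simp only [cB, cL, cA, cE, cC, cG]
        norm_num
    · intro hx
      exact lt_of_le_of_lt hx (lt_of_card le_E (by rw [cA, cE]; norm_num))
  · right; left
    refine ⟨cl ⊥, fun x => ?_⟩
    constructor
    · intro hx
      rcases six x with rfl | rfl | rfl | rfl | rfl | rfl
      · exact le_rfl
      · refine absurd hx.le (not_le_of_card ?_)
        simp only [cB, cL, cA, cE, cC, cG]
        norm_num
      · refine absurd hx.le (not_le_of_card ?_)
        simp only [cB, cL, cA, cE, cC, cG]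
        norm_num
      · refine absurd hx.le (not_le_of_card ?_)
        simp only [cB, cL, cA, cE, cC, cG]
        norm_num
      · exact absurd hx (lt_irrefl _)
      · refine absurd hx.le (not_le_of_card ?_)
        simp only [cB, cL, cA, cE, cC, cG]
        norm_num
    · intro hx
      exact lt_of_le_of_lt hx (lt_of_card le_C (by rw [cB, cC]; norm_num))
  · right; right
    refine ⟨cl ⊥, cl sE, cl sC, fun x => ?_, fun x => ?_⟩
    · constructor
      · intro hx
        rcases six x with rfl | rfl | rfl | rfl | rfl | rfl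
        · left; exact le_L.trans (le_A.trans le_E)
        · left; exact le_A.trans le_E
        · left; exact le_E
        · left; exact le_rfl
        · right; exact le_rfl
        · exact absurd hx (lt_irrefl _)
      · rintro (hx | hx)
        · exact lt_of_le_of_lt hx (lt_of_card (le_T _) (by rw [cE, cG]; norm_num))
        · exact lt_of_le_of_lt hx (lt_of_card (le_T _) (by rw [cC, cG]; norm_num))
    · constructor
      · rintro ⟨h1, h2⟩
        rcases six x with rfl | rfl | rfl | rfl | rfl | rfl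
        · exact le_rfl
        · refine absurd h2 (not_le_of_card ?_)
          simp only [cB, cL, cA, cE, cC, cG]
          norm_num
        · refine absurd h2 (not_le_of_card ?_)
          simp only [cB, cL, cA, cE, cC, cG]
          norm_num
        · refine absurd h2 (not_le_of_card ?_)
          simp only [cB, cL, cA, cE, cC, cG]
          norm_num
        · refine absurd h1 (not_le_of_card ?_)
          simp only [cB, cL, cA, cE, cC, cG]
          norm_num
        · refine absurd h1 (not_le_of_card ?_)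
          simp only [cB, cL, cA, cE, cC, cG]
          norm_num
      · intro hx
        exact ⟨hx.trans (le_L.trans (le_A.trans le_E)), hx.trans le_C⟩

/-- The seven planes with their conjugation action. -/
def planes : Dat Gp where
  Om := ZMod 7
  act :=
    { smul := fun g i => g.k + i
      one_smul := fun i => zero_add i
      mul_smul := fun g h i => add_assoc g.k h.k i }
  ka := sA
  equi := by
    intro g w x hx
    rw [conjE g x hx.1]
    exact ⟨rfl, plane_act w g.k x.v hx.2⟩
  fixe := by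
    intro w x hx
    change x.k + w = w
    rw [hx.1, zero_add]

theorem normal_E : (sE : Subgroup Gp).Normal := by
  constructor
  intro n hn g
  rw [conjE g n hn]
  rfl

/-- three vectors -/
def v12 : V8 := (0, 1, 0)
/-- three vectors -/
def v23 : V8 := (0, 0, 1)
/-- three vectors -/
def v31 : V8 := (1, 1, 0)

theorem gen_dec : ∀ i j : ZMod 7, i ≠ j → plane i v12 → plane j v12 →
    ¬ (plane i v23 ∧ plane j v23) ∧ ¬ (plane i v31 ∧ plane j v31) := by decide

theorem gldim_coef : (3 : WithBot ℕ∞) ≤ gldim (Coef Gp) := by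
  have h := lower planes sE normal_E (fun w x hx => hx.1) (0 : ZMod 7) (1 : ZMod 7) (2 : ZMod 7)
    (by decide : (0 : ZMod 7) ≠ 1) (by
      rintro ⟨i, j⟩ hij h12
      have m12 : (⟨v12, 0⟩ : Gp) ∈ sA 0 ⊓ sA 1 := ⟨⟨rfl, by decide⟩, ⟨rfl, by decide⟩⟩
      have m23 : (⟨v23, 0⟩ : Gp) ∈ sA 1 ⊓ sA 2 := ⟨⟨rfl, by decide⟩, ⟨rfl, by decide⟩⟩
      have m31 : (⟨v31, 0⟩ : Gp) ∈ sA 2 ⊓ sA 0 := ⟨⟨rfl, by decide⟩, ⟨rfl, by decide⟩⟩
      have e := h12 m12
      have g := gen_dec i j hij e.1.2 e.2.2
      constructor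
      · intro h23
        have e' := h23 m23
        exact g.1 ⟨e'.1.2, e'.2.2⟩
      · intro h31
        have e' := h31 m31
        exact g.2 ⟨e'.1.2, e'.2.2⟩)
  have h2 := (projectiveDimension_ge_iff _ 3).2 h
  exact le_trans h2 (le_iSup (fun X : Coef Gp => projectiveDimension X) _)

/-- MP_b87388, Q1. -/
theorem main : ∃ (G : Type) (_ : Group G) (_ : Finite G),
    gldim (ModuleCat.{0} (IncidenceAlgebra ℚ (SubCl G))) ≠ gldim (Coef G) ∧
    gldim (ModuleCat.{0} (IncidenceAlgebra ℚ (SubCl G))) ≤ 2 ∧ 3 ≤ gldim (Coef G) := by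
  refine ⟨Gp, inferInstance, inferInstance, ?_, gldim_le shape, gldim_coef⟩
  intro h
  have h1 := gldim_le shape
  rw [h] at h1
  have h2 := gldim_coef.trans h1
  exact absurd h2 (by decide)

end Pool.V113.Gd
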