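import Pool.Agent.V113.Gd.Stmt

open CategoryTheory

namespace Pool.V113.Gd

variable {G : Type} [Group G]

/-- The morphism `x H ↦ x g K` of orbits. -/
def Orb.mk' (X Y : Orb G) (g : G) (h : ∀ x ∈ X.H, g⁻¹ * x * g ∈ Y.H) : X ⟶ Y where
  toFun := Quotient.lift (fun x : G => ((x * g : G) : G ⧸ Y.H)) (by
    intro a b hab
    have hab' : a⁻¹ * b ∈ X.H := QuotientGroup.leftRel_apply.1 hab
    refine QuotientGroup.eq.2 ?_
    have := h _ hab'
    simpa [mul_assoc] using this)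
  map_smul' m x := by
    induction x using Quotient.inductionOn with
    | _ x => exact congrArg (fun z : G => (z : G ⧸ Y.H)) (mul_assoc m x g)

/-- The underlying equivariant map. -/
def Orb.fn {X Y : Orb G} (f : X ⟶ Y) : (G ⧸ X.H) →[G] (G ⧸ Y.H) := f

theorem Orb.mk'_apply (X Y : Orb G) (g : G) (h : ∀ x ∈ X.H, g⁻¹ * x * g ∈ Y.H) (x : G) :
    Orb.fn (Orb.mk' X Y g h) (x : G ⧸ X.H) = ((x * g : G) : G ⧸ Y.H) := rfl

theorem Orb.mk'_one (X Y : Orb G) (g : G) (h : ∀ x ∈ X.H, g⁻¹ * x * g ∈ Y.H) :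
    Orb.fn (Orb.mk' X Y g h) ((1 : G) : G ⧸ X.H) = ((g : G) : G ⧸ Y.H) := by
  rw [Orb.mk'_apply, one_mul]

theorem Orb.fn_comp {X Y Z : Orb G} (f : X ⟶ Y) (g : Y ⟶ Z) (x : G ⧸ X.H) :
    Orb.fn (f ≫ g) x = Orb.fn g (Orb.fn f x) := rfl

theorem Orb.fn_id (X : Orb G) (x : G ⧸ X.H) : Orb.fn (𝟙 X) x = x := rfl

theorem Orb.hom_ext' {X Y : Orb G} (f g : X ⟶ Y)
    (h : Orb.fn f ((1 : G) : G ⧸ X.H) = Orb.fn g ((1 : G) : G ⧸ X.H)) : f = g := by
  apply MulActionHom.ext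
  intro x
  change Orb.fn f x = Orb.fn g x
  induction x using Quotient.inductionOn with
  | _ x =>
    have e : (Quotient.mk _ x : G ⧸ X.H) = x • ((1 : G) : G ⧸ X.H) :=
      congrArg (fun z : G => (z : G ⧸ X.H)) (mul_one x).symm
    rw [e]
    rw [map_smul, map_smul]
    exact congrArg (fun z => x • z) h

/-- A representative of the image of the base point. -/
noncomputable def Orb.rep {X Y : Orb G} (f : X ⟶ Y) : G :=
  Quotient.out (Orb.fn f ((1 : G) : G ⧸ X.H))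

theorem Orb.rep_spec {X Y : Orb G} (f : X ⟶ Y) :
    Orb.fn f ((1 : G) : G ⧸ X.H) = ((Orb.rep f : G) : G ⧸ Y.H) :=
  (Quotient.out_eq _).symm

theorem Orb.rep_mem {X Y : Orb G} (f : X ⟶ Y) (x : G) (hx : x ∈ X.H) :
    (Orb.rep f)⁻¹ * x * Orb.rep f ∈ Y.H := by
  have h1 : x • ((1 : G) : G ⧸ X.H) = ((1 : G) : G ⧸ X.H) := by
    refine QuotientGroup.eq.2 ?_
    simpa using hx
  have h2 := congrArg (Orb.fn f) h1
  rw [map_smul, Orb.rep_spec f] at h2
  have h3 : ((x * Orb.rep f : G) : G ⧸ Y.H) = ((Orb.rep f : G) : G ⧸ Y.H) := h2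
  have h4 := QuotientGroup.eq.1 h3.symm
  simpa [mul_assoc] using h4

theorem Orb.eq_mk' {X Y : Orb G} (f : X ⟶ Y) :
    f = Orb.mk' X Y (Orb.rep f) (Orb.rep_mem f) := by
  apply Orb.hom_ext'
  rw [Orb.rep_spec, Orb.mk'_one]

theorem Orb.comp_mk' {X Y Z : Orb G} (a b : G) (ha) (hb) (hab) :
    Orb.mk' X Y a ha ≫ Orb.mk' Y Z b hb = Orb.mk' X Z (a * b) hab := by
  apply Orb.hom_ext'
  rw [Orb.fn_comp, Orb.mk'_apply, Orb.mk'_apply, Orb.mk'_apply, mul_assoc]

theorem Orb.comp_mk_right {X Y Z : Orb G} (f : X ⟶ Y) (a b : G)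
    (hf : Orb.fn f ((1 : G) : G ⧸ X.H) = (a : G ⧸ Y.H)) (hb) (hab) :
    f ≫ Orb.mk' Y Z b hb = Orb.mk' X Z (a * b) hab := by
  apply Orb.hom_ext'
  rw [Orb.fn_comp, hf, Orb.mk'_apply, Orb.mk'_apply, one_mul]

/-- The data defining the permutation coefficient systems. -/
structure Dat (G : Type) [Group G] where
  /-- the underlying set -/
  Om : Type
  /-- the action -/
  act : MulAction G Om
  /-- the subgroup attached to a point -/
  ka : Om → Subgroup G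
  /-- equivariance -/
  equi : ∀ (g : G) (w : Om) (x : G), x ∈ ka w → g * x * g⁻¹ ∈ ka (g • w)
  /-- the attached subgroup fixes the point -/
  fixe : ∀ (w : Om) (x : G), x ∈ ka w → x • w = w

attribute [instance] Dat.act

variable (D : Dat G)

/-- The points whose subgroup contains `X.H`. -/
def Dat.Pt (X : Orb G) : Type := {w : D.Om // X.H ≤ D.ka w}

variable {D}

theorem Dat.mem_of_mk {X Y : Orb G} (g : G) (h : ∀ x ∈ X.H, g⁻¹ * x * g ∈ Y.H)
    (w : D.Pt Y) : X.H ≤ D.ka (g • w.1) := by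
  intro x hx
  have h1 := D.equi g w.1 _ (w.2 (h x hx))
  simpa [mul_assoc] using h1

/-- Pulling back points. -/
noncomputable def Dat.pull {X Y : Orb G} (f : X ⟶ Y) (w : D.Pt Y) : D.Pt X :=
  ⟨Orb.rep f • w.1, Dat.mem_of_mk _ (Orb.rep_mem f) w⟩

theorem Dat.pull_mk {X Y : Orb G} (g : G) (h : ∀ x ∈ X.H, g⁻¹ * x * g ∈ Y.H)
    (w : D.Pt Y) : Dat.pull (Orb.mk' X Y g h) w = ⟨g • w.1, Dat.mem_of_mk g h w⟩ := by
  apply Subtype.ext
  change Orb.rep (Orb.mk' X Y g h) • w.1 = g • w.1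
  have h1 := Orb.rep_spec (Orb.mk' X Y g h)
  rw [Orb.mk'_one] at h1
  have h2 := QuotientGroup.eq.1 h1
  have h3 := D.fixe w.1 _ (w.2 h2)
  rw [mul_smul] at h3
  have h4 := congrArg (fun z => g • z) h3
  simpa using h4

theorem Dat.pull_id (X : Orb G) (w : D.Pt X) : Dat.pull (𝟙 X) w = w := by
  have : 𝟙 X = Orb.mk' X X 1 (by simp) := by
    apply Orb.hom_ext'
    rw [Orb.fn_id, Orb.mk'_one]
  rw [this, Dat.pull_mk]
  apply Subtype.ext
  simp

theorem Dat.pull_comp {X Y Z : Orb G} (f : X ⟶ Y) (g : Y ⟶ Z) (w : D.Pt Z) :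
    Dat.pull (f ≫ g) w = Dat.pull f (Dat.pull g w) := by
  have hab : ∀ x ∈ X.H, (Orb.rep f * Orb.rep g)⁻¹ * x * (Orb.rep f * Orb.rep g) ∈ Z.H := by
    intro x hx
    have := Orb.rep_mem g _ (Orb.rep_mem f x hx)
    simpa [mul_assoc] using this
  have : f ≫ g = Orb.mk' X Z (Orb.rep f * Orb.rep g) hab := by
    conv_lhs => rw [Orb.eq_mk' f, Orb.eq_mk' g]
    exact Orb.comp_mk' _ _ _ _ _
  rw [this, Dat.pull_mk]
  apply Subtype.ext
  exact mul_smul _ _ _

variable (D)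

/-- The permutation coefficient system. -/
noncomputable def Dat.F : Coef G where
  obj X := ModuleCat.of ℚ (D.Pt X.unop →₀ ℚ)
  map f := ModuleCat.ofHom (Finsupp.lmapDomain ℚ ℚ (Dat.pull f.unop))
  map_id X := by
    apply ModuleCat.hom_ext
    apply Finsupp.lhom_ext
    intro w b
    change Finsupp.mapDomain (Dat.pull (𝟙 X.unop)) (Finsupp.single w b) = Finsupp.single w b
    rw [Finsupp.mapDomain_single, Dat.pull_id]
  map_comp f g := by
    apply ModuleCat.hom_ext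
    apply Finsupp.lhom_ext
    intro w b
    change Finsupp.mapDomain (Dat.pull (g.unop ≫ f.unop)) (Finsupp.single w b) =
      Finsupp.mapDomain (Dat.pull g.unop)
        (Finsupp.mapDomain (Dat.pull f.unop) (Finsupp.single w b))
    rw [Finsupp.mapDomain_single, Finsupp.mapDomain_single, Finsupp.mapDomain_single,
      Dat.pull_comp]

/-- The orbit attached to a point. -/
def Dat.orb (w : D.Om) : Orb G := ⟨D.ka w⟩

/-- The tautological point. -/
def Dat.taut (w : D.Om) : D.Pt (D.orb w) := ⟨w, le_rfl⟩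

end Pool.V113.Gd
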