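import Mathlib

namespace Pool.V113.Gd

/-- The vector space `𝔽₂³`. -/
abbrev V8 : Type := ZMod 2 × ZMod 2 × ZMod 2

/-- A linear map of order seven. -/
def sg (v : V8) : V8 := (v.2.2, v.1 + v.2.2, v.2.1)

/-- Its powers. -/
def act (k : ZMod 7) (v : V8) : V8 := sg^[k.val] v

set_option maxRecDepth 100000

theorem act_add : ∀ (k : ZMod 7) (v w : V8), act k (v + w) = act k v + act k w := by
  decide

theorem act_act : ∀ (k l : ZMod 7) (v : V8), act k (act l v) = act (k + l) v := by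
  decide

theorem act_zero' : ∀ v : V8, act 0 v = v := by decide

theorem act_zero : ∀ k : ZMod 7, act k 0 = 0 := by decide

theorem act_trans : ∀ v w : V8, v ≠ 0 → w ≠ 0 → ∃ k : ZMod 7, act k v = w := by decide

theorem act_surj : ∀ k : ZMod 7, k ≠ 0 → ∀ v : V8, ∃ u : V8, u + act k u = v := by decide

theorem add_self8 : ∀ v : V8, v + v = 0 := by decide

/-- The planes. -/
def plane (i : ZMod 7) (v : V8) : Prop := (act (-i) v).2.2 = 0

instance (i : ZMod 7) (v : V8) : Decidable (plane i v) := by unfold plane; infer_instance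

/-- The plane is contained in the span of two vectors. -/
def PE (a b : V8) (i : ZMod 7) : Prop :=
  ∀ v : V8, plane i v → v = 0 ∨ v = a ∨ v = b ∨ v = a + b

instance (a b : V8) (i : ZMod 7) : Decidable (PE a b i) := by unfold PE; infer_instance

/-- auxiliary -/
def PE2 (a : V8) : Prop := ∀ b : V8, b ≠ 0 → a ≠ b → ∃ i : ZMod 7, PE a b i

instance (a : V8) : Decidable (PE2 a) := by unfold PE2; infer_instance

theorem plane_exists' : ∀ a : V8, a ≠ 0 → PE2 a := by decide

theorem plane_exists (a b : V8) (ha : a ≠ 0) (hb : b ≠ 0) (hab : a ≠ b) :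
    ∃ i : ZMod 7, PE a b i := plane_exists' a ha b hb hab

/-- The group `𝔽₂³ ⋊ C₇` of order `56`. -/
structure Gp : Type where
  /-- translation part -/
  v : V8
  /-- rotation part -/
  k : ZMod 7
deriving DecidableEq

theorem Gp.ext' {a b : Gp} (h1 : a.v = b.v) (h2 : a.k = b.k) : a = b := by
  cases a; cases b
  simp only at h1 h2
  rw [h1, h2]

instance : Mul Gp := ⟨fun a b => ⟨a.v + act a.k b.v, a.k + b.k⟩⟩
instance : One Gp := ⟨⟨0, 0⟩⟩
instance : Inv Gp := ⟨fun a => ⟨act (-a.k) a.v, -a.k⟩⟩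

theorem Gp.mul_v (a b : Gp) : (a * b).v = a.v + act a.k b.v := rfl
theorem Gp.mul_k (a b : Gp) : (a * b).k = a.k + b.k := rfl
theorem Gp.one_v : (1 : Gp).v = 0 := rfl
theorem Gp.one_k : (1 : Gp).k = 0 := rfl
theorem Gp.inv_v (a : Gp) : (a⁻¹).v = act (-a.k) a.v := rfl
theorem Gp.inv_k (a : Gp) : (a⁻¹).k = -a.k := rfl

instance : Group Gp := Group.ofLeftAxioms
  (by
    intro a b c
    apply Gp.ext'
    · simp only [Gp.mul_v, Gp.mul_k, act_add, act_act, add_assoc]
    · simp only [Gp.mul_k, add_assoc])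
  (by
    intro a
    apply Gp.ext'
    · rw [Gp.mul_v, Gp.one_v, Gp.one_k, act_zero', zero_add]
    · rw [Gp.mul_k, Gp.one_k, zero_add])
  (by
    intro a
    apply Gp.ext'
    · rw [Gp.mul_v, Gp.inv_v, Gp.inv_k, Gp.one_v, add_self8]
    · rw [Gp.mul_k, Gp.inv_k, Gp.one_k, neg_add_cancel])

/-- the underlying pair -/
def Gp.equiv : Gp ≃ V8 × ZMod 7 where
  toFun a := (a.v, a.k)
  invFun p := ⟨p.1, p.2⟩
  left_inv _ := rfl
  right_inv _ := rfl

instance : Fintype Gp := Fintype.ofEquiv _ Gp.equiv.symm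

theorem conjE (g x : Gp) (hx : x.k = 0) : g * x * g⁻¹ = ⟨act g.k x.v, 0⟩ := by
  rw [mul_inv_eq_iff_eq_mul]
  apply Gp.ext'
  · rw [Gp.mul_v, Gp.mul_v, act_zero', add_comm]
  · rw [Gp.mul_k, Gp.mul_k, hx, add_zero, zero_add]

/-- translations -/
def sE : Subgroup Gp where
  carrier := {g | g.k = 0}
  mul_mem' {a b} ha hb := by
    change (a * b).k = 0
    rw [Gp.mul_k, show a.k = 0 from ha, show b.k = 0 from hb, add_zero]
  one_mem' := rfl
  inv_mem' {a} ha := by
    change (a⁻¹).k = 0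
    rw [Gp.inv_k, show a.k = 0 from ha, neg_zero]

/-- rotations -/
def sC : Subgroup Gp where
  carrier := {g | g.v = 0}
  mul_mem' {a b} ha hb := by
    change (a * b).v = 0
    rw [Gp.mul_v, show a.v = 0 from ha, show b.v = 0 from hb, act_zero, add_zero]
  one_mem' := rfl
  inv_mem' {a} ha := by
    change (a⁻¹).v = 0
    rw [Gp.inv_v, show a.v = 0 from ha, act_zero]

theorem plane_add (i : ZMod 7) (v w : V8) (hv : plane i v) (hw : plane i w) :
    plane i (v + w) := by
  unfold plane at *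
  rw [act_add, Prod.snd_add, Prod.snd_add, hv, hw, add_zero]

theorem plane_zero (i : ZMod 7) : plane i 0 := by
  unfold plane
  rw [act_zero]
  rfl

theorem plane_act (i k : ZMod 7) (v : V8) (h : plane i v) : plane (k + i) (act k v) := by
  unfold plane at *
  rw [act_act]
  have : -(k + i) + k = -i := by ring
  rw [this, h]

/-- plane subgroups -/
def sA (i : ZMod 7) : Subgroup Gp where
  carrier := {g | g.k = 0 ∧ plane i g.v}
  mul_mem' {a b} ha hb := by
    change (a * b).k = 0 ∧ plane i (a * b).v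
    rw [Gp.mul_k, Gp.mul_v, ha.1, hb.1, act_zero']
    exact ⟨add_zero _, plane_add i _ _ ha.2 hb.2⟩
  one_mem' := ⟨rfl, plane_zero i⟩
  inv_mem' {a} ha := by
    change (a⁻¹).k = 0 ∧ plane i (a⁻¹).v
    rw [Gp.inv_k, Gp.inv_v, ha.1, neg_zero, act_zero']
    exact ⟨rfl, ha.2⟩

/-- a vector in the plane `0` -/
def x0 : V8 := (1, 0, 0)

/-- a line subgroup -/
def sL : Subgroup Gp where
  carrier := {g | g.k = 0 ∧ (g.v = 0 ∨ g.v = x0)}
  mul_mem' {a b} ha hb := by
    change (a * b).k = 0 ∧ ((a * b).v = 0 ∨ (a * b).v = x0)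
    rw [Gp.mul_k, Gp.mul_v, ha.1, hb.1, act_zero']
    refine ⟨add_zero _, ?_⟩
    rcases ha.2 with h1 | h1 <;> rcases hb.2 with h2 | h2 <;> rw [h1, h2]
    · left; exact add_zero _
    · right; exact zero_add _
    · right; exact add_zero _
    · left; exact add_self8 _
  one_mem' := ⟨rfl, Or.inl rfl⟩
  inv_mem' {a} ha := by
    change (a⁻¹).k = 0 ∧ ((a⁻¹).v = 0 ∨ (a⁻¹).v = x0)
    rw [Gp.inv_k, Gp.inv_v, ha.1, neg_zero, act_zero']
    exact ⟨rfl, ha.2⟩

theorem card_E : Nat.card sE = 8 := by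
  have h : Nat.card sE = Nat.card {g : Gp // g.k = 0} := rfl
  rw [h, Nat.card_eq_fintype_card]
  decide +kernel

theorem card_C : Nat.card sC = 7 := by
  have h : Nat.card sC = Nat.card {g : Gp // g.v = 0} := rfl
  rw [h, Nat.card_eq_fintype_card]
  decide +kernel

theorem card_A : Nat.card (sA 0) = 4 := by
  have h : Nat.card (sA 0) = Nat.card {g : Gp // g.k = 0 ∧ plane 0 g.v} := rfl
  rw [h, Nat.card_eq_fintype_card]
  decide +kernel

theorem card_L : Nat.card sL = 2 := by
  have h : Nat.card sL = Nat.card {g : Gp // g.k = 0 ∧ (g.v = 0 ∨ g.v = x0)} := rfl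
  rw [h, Nat.card_eq_fintype_card]
  decide +kernel

theorem card_G : Nat.card (⊤ : Subgroup Gp) = 56 := by
  rw [Subgroup.card_top, Nat.card_eq_fintype_card]
  decide +kernel

end Pool.V113.Gd
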