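import Mathlib

open CategoryTheory

namespace Pool.V113.Gd

set_option linter.unusedSectionVars false
set_option linter.unusedVariables false

variable {P : Type} [PartialOrder P] [LocallyFiniteOrder P] [DecidableEq P] [Fintype P]

theorem mulf (f g : IncidenceAlgebra ℚ P) (x y : P) :
    (f * g) x y = ∑ c : P, f x c * g c y := by
  rw [IncidenceAlgebra.mul_apply]
  apply Finset.sum_subset (Finset.subset_univ _)
  intro c _ hc
  by_cases h1 : x ≤ c
  · have h2 : ¬ c ≤ y := fun h => hc (Finset.mem_Icc.2 ⟨h1, h⟩)
    rw [IncidenceAlgebra.apply_eq_zero_of_not_le h2, mul_zero]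
  · rw [IncidenceAlgebra.apply_eq_zero_of_not_le h1, zero_mul]

/-- The basis element `x ≤ y` (zero if `x` is not below `y`). -/
noncomputable def eb (x y : P) : IncidenceAlgebra ℚ P := by
  classical exact ⟨fun a b => if a = x ∧ b = y ∧ x ≤ y then 1 else 0, by
    intro a b hab
    rw [if_neg]
    rintro ⟨rfl, rfl, h⟩
    exact hab h⟩

theorem eb_apply (x y a b : P) [Decidable (a = x ∧ b = y ∧ x ≤ y)] :
    eb x y a b = if a = x ∧ b = y ∧ x ≤ y then 1 else 0 := by
  unfold eb
  rw [IncidenceAlgebra.coe_mk]
  congr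

theorem mul_eb (f : IncidenceAlgebra ℚ P) (x y : P) (h : x ≤ y) :
    f * eb x y = ∑ a : P, f a x • eb a y := by
  classical
  ext a b hab
  rw [mulf]
  have e1 : (∑ a : P, f a x • eb a y) a b = ∑ c : P, f c x * eb c y a b := by
    have : ∀ s : Finset P, (∑ a ∈ s, f a x • eb a y) a b = ∑ c ∈ s, f c x * eb c y a b := by
      intro s
      induction s using Finset.induction_on with
      | empty => simp
      | insert c s hc ih =>
        rw [Finset.sum_insert hc, Finset.sum_insert hc, IncidenceAlgebra.add_apply, ih]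
        rfl
    exact this _
  rw [e1]
  simp only [eb_apply]
  rw [Finset.sum_eq_single x, Finset.sum_eq_single a]
  · by_cases hb : b = y
    · subst hb
      simp [h, hab]
    · simp [hb]
  · intro c _ hc
    rw [if_neg, mul_zero]
    rintro ⟨h1, -, -⟩
    exact hc h1.symm
  · intro hh; exact absurd (Finset.mem_univ _) hh
  · intro c _ hc
    rw [if_neg, mul_zero]
    rintro ⟨h1, -, -⟩
    exact hc h1
  · intro hh; exact absurd (Finset.mem_univ _) hh

theorem eb_mul_eb (x y z : P) (h1 : x ≤ y) (h2 : y ≤ z) : eb x y * eb y z = eb x z := by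
  classical
  rw [mul_eb _ _ _ h2]
  rw [Finset.sum_eq_single x]
  · rw [eb_apply, if_pos ⟨rfl, rfl, h1⟩, one_smul]
  · intro c _ hc
    rw [eb_apply, if_neg, zero_smul]
    rintro ⟨h, -, -⟩
    exact hc h
  · intro hh; exact absurd (Finset.mem_univ _) hh

theorem eb_mul_eb_ne (x y z w : P) (h2 : z ≤ w) (h : y ≠ z) : eb x y * eb z w = 0 := by
  classical
  rw [mul_eb _ _ _ h2]
  apply Finset.sum_eq_zero
  intro c _
  rw [eb_apply, if_neg, zero_smul]
  rintro ⟨-, h', -⟩
  exact h h'.symm

theorem sum_eb : ∑ x : P, eb x x = (1 : IncidenceAlgebra ℚ P) := by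
  classical
  have h := mul_one (1 : IncidenceAlgebra ℚ P)
  ext a b hab
  have : ∀ s : Finset P, (∑ c ∈ s, eb c c) a b = ∑ c ∈ s, eb c c a b := by
    intro s
    induction s using Finset.induction_on with
    | empty => simp
    | insert c s hc ih =>
      rw [Finset.sum_insert hc, Finset.sum_insert hc, IncidenceAlgebra.add_apply, ih]
  rw [this, IncidenceAlgebra.one_apply, Finset.sum_eq_single a]
  · rw [eb_apply]
    by_cases hb : a = b
    · subst hb
      simp
    · rw [if_neg hb, if_neg]
      rintro ⟨-, h2, -⟩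
      exact hb h2.symm
  · intro c _ hc
    rw [eb_apply, if_neg]
    rintro ⟨h1, -, -⟩
    exact hc h1.symm
  · intro hh; exact absurd (Finset.mem_univ _) hh

/-- Functions `P → V`. -/
def Fn (P V : Type) : Type := P → V

section Fn
variable (V : Type) [AddCommGroup V] [Module ℚ V]

instance Fn.instAddCommGroup : AddCommGroup (Fn P V) := Pi.addCommGroup

instance Fn.instModuleRat : Module ℚ (Fn P V) := Pi.module _ _ _

instance Fn.instSMul : SMul (IncidenceAlgebra ℚ P) (Fn P V) where
  smul f v := fun x => ∑ y : P, f x y • v y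

variable {V}

theorem Fn.smul_apply (f : IncidenceAlgebra ℚ P) (v : Fn P V) (x : P) :
    (f • v) x = ∑ y : P, f x y • v y := rfl

theorem Fn.add_apply (v w : Fn P V) (x : P) : (v + w) x = v x + w x := rfl

theorem Fn.zero_apply (x : P) : (0 : Fn P V) x = 0 := rfl

theorem Fn.qsmul_apply (c : ℚ) (v : Fn P V) (x : P) : (c • v) x = c • v x := rfl

variable (V)

noncomputable instance Fn.instModule : Module (IncidenceAlgebra ℚ P) (Fn P V) where
  one_smul v := by
    funext x
    rw [Fn.smul_apply, Finset.sum_eq_single x]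
    · simp
    · intro y _ hy
      rw [IncidenceAlgebra.one_apply, if_neg (Ne.symm hy), zero_smul]
    · intro hh; exact absurd (Finset.mem_univ _) hh
  mul_smul f g v := by
    funext x
    rw [Fn.smul_apply, Fn.smul_apply]
    simp only [Fn.smul_apply, mulf, Finset.sum_smul, Finset.smul_sum, smul_smul]
    exact Finset.sum_comm
  smul_zero f := by
    funext x
    rw [Fn.smul_apply]
    exact Finset.sum_eq_zero fun y _ => smul_zero _
  smul_add f v w := by
    funext x
    rw [Fn.add_apply, Fn.smul_apply, Fn.smul_apply, Fn.smul_apply, ← Finset.sum_add_distrib]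
    exact Finset.sum_congr rfl fun y _ => by rw [Fn.add_apply, smul_add]
  add_smul f g v := by
    funext x
    rw [Fn.add_apply, Fn.smul_apply, Fn.smul_apply, Fn.smul_apply, ← Finset.sum_add_distrib]
    exact Finset.sum_congr rfl fun y _ => by rw [IncidenceAlgebra.add_apply, add_smul]
  zero_smul v := by
    funext x
    rw [Fn.smul_apply]
    exact Finset.sum_eq_zero fun y _ => by rw [IncidenceAlgebra.zero_apply, zero_smul]

instance Fn.instTower : IsScalarTower ℚ (IncidenceAlgebra ℚ P) (Fn P V) where
  smul_assoc c f v := by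
    funext x
    rw [Fn.qsmul_apply, Fn.smul_apply, Fn.smul_apply, Finset.smul_sum]
    exact Finset.sum_congr rfl fun y _ => by
      rw [smul_smul]
      rfl

/-- Functions supported on a lower set. -/
def Sup (D : LowerSet P) : Submodule (IncidenceAlgebra ℚ P) (Fn P V) where
  carrier := {v | ∀ x, x ∉ D → v x = 0}
  add_mem' {a b} ha hb x hx := by rw [Fn.add_apply, ha x hx, hb x hx, add_zero]
  zero_mem' x _ := rfl
  smul_mem' f v hv x hx := by
    rw [Fn.smul_apply]
    apply Finset.sum_eq_zero
    intro y _
    by_cases hxy : x ≤ y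
    · rw [hv y (fun h => hx (D.lower hxy h)), smul_zero]
    · rw [IncidenceAlgebra.apply_eq_zero_of_not_le hxy, zero_smul]

theorem mem_Sup {V : Type} [AddCommGroup V] [Module ℚ V] (D : LowerSet P) (v : Fn P V) :
    v ∈ Sup V D ↔ ∀ x, x ∉ D → v x = 0 := Iff.rfl

/-- The function supported at one point. -/
noncomputable def dl {V : Type} [AddCommGroup V] [Module ℚ V] (x : P) : V →ₗ[ℚ] Fn P V where
  toFun v := fun z => if z = x then v else 0
  map_add' a b := by
    funext z
    change (if z = x then a + b else 0) = (if z = x then a else 0) + (if z = x then b else 0)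
    by_cases h : z = x
    · rw [if_pos h, if_pos h, if_pos h]
    · rw [if_neg h, if_neg h, if_neg h, add_zero]
  map_smul' c a := by
    funext z
    change (if z = x then c • a else 0) = c • (if z = x then a else 0)
    by_cases h : z = x
    · rw [if_pos h, if_pos h]
    · rw [if_neg h, if_neg h, smul_zero]

theorem dl_apply {V : Type} [AddCommGroup V] [Module ℚ V] (x z : P) (v : V) :
    dl x v z = if z = x then v else 0 := rfl

theorem eb_dl {V : Type} [AddCommGroup V] [Module ℚ V] (x y : P) (h : x ≤ y) (v : V) :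
    eb x y • dl y v = dl x v := by
  classical
  funext z
  rw [Fn.smul_apply, Finset.sum_eq_single y]
  · rw [dl_apply, dl_apply, eb_apply, if_pos rfl]
    by_cases hz : z = x
    · subst hz
      simp [h]
    · simp [hz]
  · intro c _ hc
    rw [dl_apply, if_neg hc, smul_zero]
  · intro hh; exact absurd (Finset.mem_univ _) hh

theorem sum_dl {V : Type} [AddCommGroup V] [Module ℚ V] (v : Fn P V) :
    ∑ x : P, dl x (v x) = v := by
  funext z
  have : ∀ s : Finset P, (∑ x ∈ s, dl x (v x)) z = ∑ x ∈ s, dl x (v x) z := by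
    intro s
    induction s using Finset.induction_on with
    | empty => simp [Fn.zero_apply]
    | insert c s hc ih =>
      rw [Finset.sum_insert hc, Finset.sum_insert hc, Fn.add_apply, ih]
  rw [this, Finset.sum_eq_single z]
  · rw [dl_apply, if_pos rfl]
  · intro c _ hc
    rw [dl_apply, if_neg (Ne.symm hc)]
  · intro hh; exact absurd (Finset.mem_univ _) hh

theorem dl_mem {V : Type} [AddCommGroup V] [Module ℚ V] (D : LowerSet P) (x : P) (h : x ∈ D)
    (v : V) : dl x v ∈ Sup V D := by
  intro z hz
  rw [dl_apply, if_neg]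
  rintro rfl
  exact hz h

theorem sup_projective (V : Type) [AddCommGroup V] [Module ℚ V] (y : P) :
    Module.Projective (IncidenceAlgebra ℚ P) (Sup V (LowerSet.Iic y)) := by
  classical
  apply Module.Projective.of_lifting_property''
  intro f hf
  let N := (Sup V (LowerSet.Iic y) →₀ IncidenceAlgebra ℚ P)
  obtain ⟨t, ht⟩ := (f.restrictScalars ℚ).exists_rightInverse_of_surjective
    (LinearMap.range_eq_top.2 hf)
  let dy : V →ₗ[ℚ] Sup V (LowerSet.Iic y) :=
    { toFun := fun v => ⟨dl y v, dl_mem _ _ (by simp) v⟩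
      map_add' := fun a b => Subtype.ext (map_add (dl y) a b)
      map_smul' := fun c a => Subtype.ext (map_smul (dl y) c a) }
  have hft : ∀ w, f (t w) = w := fun w => LinearMap.congr_fun ht w
  let L : V →ₗ[ℚ] N := t ∘ₗ dy
  have hL : ∀ v, f (L v) = dy v := fun v => hft _
  let h : Sup V (LowerSet.Iic y) → N := fun w => ∑ x : P, eb x y • L (w.1 x)
  refine ⟨{ toFun := h, map_add' := ?_, map_smul' := ?_ }, ?_⟩
  · intro a b
    change ∑ x : P, _ = (∑ x : P, _) + ∑ x : P, _
    rw [← Finset.sum_add_distrib]
    refine Finset.sum_congr rfl fun x _ => ?_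
    rw [← smul_add, ← map_add]
    rfl
  · intro r w
    change ∑ x : P, eb x y • L ((r • w.1) x) = r • ∑ x : P, eb x y • L (w.1 x)
    rw [Finset.smul_sum]
    have e1 : ∀ x : P, eb x y • L ((r • w.1) x) = ∑ z : P, r x z • (eb x y • L (w.1 z)) := by
      intro x
      rw [Fn.smul_apply, map_sum, Finset.smul_sum]
      refine Finset.sum_congr rfl fun z _ => ?_
      rw [map_smul, smul_comm]
    have e2 : ∀ z : P, r • (eb z y • L (w.1 z)) = ∑ x : P, r x z • (eb x y • L (w.1 z)) := by
      intro z
      by_cases hz : z ≤ y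
      · rw [smul_smul, mul_eb r z y hz, Finset.sum_smul]
        refine Finset.sum_congr rfl fun x _ => ?_
        rw [smul_assoc]
      · have : w.1 z = 0 := w.2 z (by simpa using hz)
        rw [this, map_zero, smul_zero, smul_zero]
        symm
        apply Finset.sum_eq_zero
        intro x _
        rw [smul_zero, smul_zero]
    rw [Finset.sum_congr rfl fun x _ => e1 x, Finset.sum_congr rfl fun x _ => e2 x]
    exact Finset.sum_comm
  · apply LinearMap.ext
    intro w
    change f (∑ x : P, eb x y • L (w.1 x)) = w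
    rw [map_sum]
    simp only [map_smul, hL]
    apply Subtype.ext
    rw [AddSubmonoidClass.coe_finsetSum]
    refine Eq.trans ?_ (sum_dl w.1)
    refine Finset.sum_congr rfl fun x _ => ?_
    change eb x y • dl y (w.1 x) = _
    by_cases hx : x ≤ y
    · rw [eb_dl x y hx]
    · have : w.1 x = 0 := w.2 x (by simpa using hx)
      rw [this, map_zero, map_zero, smul_zero]

end Fn

end Pool.V113.Gd
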