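import Pool.Agent.V113.Gd.Proj

open CategoryTheory Opposite Limits

namespace Pool.V113.Gd

theorem exact_of_eval {J : Type} [Category.{0} J] (S : ShortComplex (J ⥤ ModuleCat.{0} ℚ))
    (h : ∀ j, (S.map ((evaluation J (ModuleCat.{0} ℚ)).obj j)).Exact) : S.Exact := by
  rw [ShortComplex.exact_iff_isZero_homology]
  rw [Functor.isZero_iff]
  intro j
  have h1 := (ShortComplex.exact_iff_isZero_homology _).1 (h j)
  exact h1.of_iso (S.mapHomologyIso ((evaluation J (ModuleCat.{0} ℚ)).obj j)).symm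

variable {G : Type} [Group G]

/-- The map of permutation coefficient systems. -/
noncomputable def Fmap (D D' : Dat G) (p : D.Om → D'.Om) (hp : ∀ (g : G) w, p (g • w) = g • p w)
    (hk : ∀ w, D.ka w ≤ D'.ka (p w)) : D.F ⟶ D'.F where
  app X := ModuleCat.ofHom (Finsupp.lmapDomain ℚ ℚ
    (fun w : D.Pt X.unop => (⟨p w.1, w.2.trans (hk _)⟩ : D'.Pt X.unop)))
  naturality X Y f := by
    apply ModuleCat.hom_ext
    apply Finsupp.lhom_ext
    intro w b
    change Finsupp.mapDomain _ (Finsupp.mapDomain (Dat.pull f.unop) (Finsupp.single w b)) =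
      Finsupp.mapDomain (Dat.pull f.unop) (Finsupp.mapDomain _ (Finsupp.single w b))
    rw [Finsupp.mapDomain_single, Finsupp.mapDomain_single, Finsupp.mapDomain_single,
      Finsupp.mapDomain_single]
    congr 1
    apply Subtype.ext
    exact hp _ _

/-- the pairs. -/
def Dat.sq (D : Dat G) : Dat G where
  Om := D.Om × D.Om
  act := inferInstance
  ka w := D.ka w.1 ⊓ D.ka w.2
  equi g w x hx := ⟨D.equi g w.1 x hx.1, D.equi g w.2 x hx.2⟩
  fixe w x hx := Prod.ext (D.fixe w.1 x hx.1) (D.fixe w.2 x hx.2)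

/-- one point. -/
def Dat.pt (E : Subgroup G) (hE : E.Normal) : Dat G where
  Om := Unit
  act := { smul := fun _ _ => (), one_smul := fun _ => rfl, mul_smul := fun _ _ _ => rfl }
  ka _ := E
  equi g _ x hx := hE.conj_mem x hx g
  fixe _ _ _ := rfl

variable (D : Dat G) (E : Subgroup G) (hE : E.Normal) (hDE : ∀ w, D.ka w ≤ E)

/-- the map on points for the augmentation -/
def augPt (X : Orb G) (w : D.Pt X) : (Dat.pt E hE).Pt X :=
  ⟨(show (Dat.pt E hE).Om from ()), w.2.trans (hDE _)⟩

/-- augmentation -/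
noncomputable def augm : D.F ⟶ (Dat.pt E hE).F :=
  Fmap D (Dat.pt E hE) (fun _ => ()) (fun _ _ => rfl) hDE

/-- first projection -/
noncomputable def dFst : D.sq.F ⟶ D.F :=
  Fmap D.sq D Prod.fst (fun _ _ => rfl) (fun _ => inf_le_left)

/-- second projection -/
noncomputable def dSnd : D.sq.F ⟶ D.F :=
  Fmap D.sq D Prod.snd (fun _ _ => rfl) (fun _ => inf_le_right)

/-- difference map -/
noncomputable def del : D.sq.F ⟶ D.F := dFst D - dSnd D

theorem del_augm : del D ≫ augm D E hE hDE = 0 := by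
  unfold del
  rw [Preadditive.sub_comp, sub_eq_zero]
  apply NatTrans.ext
  funext X
  apply ModuleCat.hom_ext
  apply Finsupp.lhom_ext
  intro w b
  change Finsupp.mapDomain _ (Finsupp.mapDomain _ (Finsupp.single w b)) =
      Finsupp.mapDomain _ (Finsupp.mapDomain _ (Finsupp.single w b))
  rw [Finsupp.mapDomain_single, Finsupp.mapDomain_single, Finsupp.mapDomain_single,
      Finsupp.mapDomain_single]

theorem del_app (X : (Orb G)ᵒᵖ) (y : D.sq.Pt X.unop →₀ ℚ) :
    ((del D).app X).hom y =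
      Finsupp.mapDomain (fun w : D.sq.Pt X.unop =>
        (⟨w.1.1, w.2.trans inf_le_left⟩ : D.Pt X.unop)) y -
      Finsupp.mapDomain (fun w : D.sq.Pt X.unop =>
        (⟨w.1.2, w.2.trans inf_le_right⟩ : D.Pt X.unop)) y := rfl

theorem exact_del : (ShortComplex.mk (del D) (augm D E hE hDE) (del_augm D E hE hDE)).Exact := by
  apply exact_of_eval
  intro X
  rw [ShortComplex.moduleCat_exact_iff]
  intro x hx
  by_cases hne : Nonempty (D.Pt X.unop)
  · obtain ⟨w0⟩ := hne
    let x' : D.Pt X.unop →₀ ℚ := x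
    have hx' : Finsupp.mapDomain (augPt D E hE hDE X.unop) x' = 0 := hx
    refine ⟨Finsupp.mapDomain (fun w : D.Pt X.unop =>
      (⟨(w.1, w0.1), le_inf w.2 w0.2⟩ : D.sq.Pt X.unop)) x', ?_⟩
    change ((del D).app X).hom _ = x'
    rw [del_app, ← Finsupp.mapDomain_comp, ← Finsupp.mapDomain_comp]
    have h1 : Finsupp.mapDomain (fun _ : D.Pt X.unop => w0) x' = 0 := by
      have h2 : Finsupp.mapDomain ((fun _ : (Dat.pt E hE).Pt X.unop => w0) ∘
        (augPt D E hE hDE X.unop)) x' = 0 := by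
        rw [Finsupp.mapDomain_comp, hx', Finsupp.mapDomain_zero]
      exact h2
    have h3 : Finsupp.mapDomain (fun w : D.Pt X.unop => w) x' = x' := Finsupp.mapDomain_id
    have h4 : Finsupp.mapDomain (fun w : D.Pt X.unop => w) x' -
        Finsupp.mapDomain (fun _ : D.Pt X.unop => w0) x' = x' := by
      rw [h1, h3, sub_zero]
    exact h4
  · refine ⟨0, ?_⟩
    have : IsEmpty (D.Pt X.unop) := not_nonempty_iff.1 hne
    have h0 : ∀ v : D.Pt X.unop →₀ ℚ, v = 0 := fun v => Subsingleton.elim _ _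
    exact (h0 _).trans (h0 _).symm

end Pool.V113.Gd
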