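import Pool.Agent.V113.Gd.Fun

open CategoryTheory Opposite

namespace Pool.V113.Gd

variable {G : Type} [Group G] (D : Dat G)

section
variable (N : Coef G) (n : ∀ w : D.Om, N.obj (op (D.orb w)))

/-- pulling back a chosen element. -/
noncomputable def Dat.val (X : Orb G) (g : G) (w : D.Om)
    (h : ∀ x ∈ X.H, g⁻¹ * x * g ∈ D.ka w) : N.obj (op X) :=
  (N.map (Orb.mk' X (D.orb w) g h).op).hom (n w)

theorem Dat.val_congr (X : Orb G) (g g' : G) (w w' : D.Om) (h) (h') (e : w = w') (e' : g = g') :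
    D.val N n X g w h = D.val N n X g' w' h' := by
  subst e
  subst e'
  rfl

theorem Dat.val_pull {X Y : Orb G} (f : X ⟶ Y) (a g : G) (w : D.Om)
    (hf : Orb.fn f ((1 : G) : G ⧸ X.H) = (a : G ⧸ Y.H)) (h) (h') :
    (N.map f.op).hom (D.val N n Y g w h) = D.val N n X (a * g) w h' := by
  have e : f ≫ Orb.mk' Y (D.orb w) g h = Orb.mk' X (D.orb w) (a * g) h' :=
    Orb.comp_mk_right f a g hf h h'
  unfold Dat.val
  rw [← e]
  rw [op_comp, N.map_comp]
  rfl

theorem Dat.avg_mem (X : Orb G) (w : D.Pt X) (g : G) :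
    ∀ x ∈ X.H, g⁻¹ * x * g ∈ D.ka (g⁻¹ • w.1) := by
  intro x hx
  have := D.equi g⁻¹ w.1 x (w.2 hx)
  simpa using this

/-- The averaged lift. -/
noncomputable def Dat.avg [Fintype G] (X : Orb G) (w : D.Pt X) : N.obj (op X) :=
  (Fintype.card G : ℚ)⁻¹ • ∑ g : G, D.val N n X g (g⁻¹ • w.1) (D.avg_mem X w g)

theorem Dat.avg_pull [Fintype G] {X Y : Orb G} (f : X ⟶ Y) (w : D.Pt Y) :
    (N.map f.op).hom (D.avg N n Y w) = D.avg N n X (Dat.pull f w) := by
  unfold Dat.avg
  rw [map_smul, map_sum]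
  congr 1
  have hab : ∀ g : G, ∀ x ∈ X.H, (Orb.rep f * g)⁻¹ * x * (Orb.rep f * g) ∈ D.ka (g⁻¹ • w.1) := by
    intro g x hx
    have := D.equi g⁻¹ w.1 _ (w.2 (Orb.rep_mem f x hx))
    simpa [mul_assoc] using this
  have h1 : ∀ g : G, (N.map f.op).hom (D.val N n Y g (g⁻¹ • w.1) (D.avg_mem Y w g)) =
      D.val N n X (Orb.rep f * g) (g⁻¹ • w.1) (hab g) := by
    intro g
    exact D.val_pull N n f (Orb.rep f) g _ (Orb.rep_spec f) _ _
  rw [Finset.sum_congr rfl (fun g _ => h1 g)]
  refine Fintype.sum_equiv (Equiv.mulLeft (Orb.rep f)) _ _ ?_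
  intro g
  apply Dat.val_congr
  · change _ = (Orb.rep f * g)⁻¹ • (Orb.rep f • w.1)
    rw [smul_smul]
    congr 1
    group
  · rfl

end

theorem Dat.lift_aux (M N : Coef G) (f : D.F ⟶ M) (e : N ⟶ M)
    (n : ∀ w : D.Om, N.obj (op (D.orb w)))
    (hn : ∀ w, (e.app _).hom (n w) = (f.app _).hom (Finsupp.single (D.taut w) 1))
    (X : Orb G) (w : D.Pt X) (g : G) :
    (e.app (op X)).hom (D.val N n X g (g⁻¹ • w.1) (D.avg_mem X w g)) =
      (f.app (op X)).hom (Finsupp.single w 1) := by
  unfold Dat.val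
  have h1 := congrArg (fun q => ModuleCat.Hom.hom q (n (g⁻¹ • w.1)))
    (e.naturality (Orb.mk' X (D.orb (g⁻¹ • w.1)) g (D.avg_mem X w g)).op)
  have h2 := congrArg (fun q => ModuleCat.Hom.hom q (Finsupp.single (D.taut (g⁻¹ • w.1)) 1))
    (f.naturality (Orb.mk' X (D.orb (g⁻¹ • w.1)) g (D.avg_mem X w g)).op)
  simp only [ModuleCat.hom_comp, LinearMap.comp_apply] at h1 h2
  rw [h1, hn]
  refine h2.symm.trans ?_
  congr 1
  change Finsupp.mapDomain (Dat.pull _) (Finsupp.single _ 1) = _
  rw [Finsupp.mapDomain_single, Quiver.Hom.unop_op, Dat.pull_mk]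
  congr 1
  apply Subtype.ext
  change g • (g⁻¹ • w.1) = w.1
  simp

theorem Dat.projective [Finite G] : Projective D.F := by
  have : Fintype G := Fintype.ofFinite G
  constructor
  intro N M f e he
  have hsurj : ∀ (X : (Orb G)ᵒᵖ) (m : M.obj X), ∃ n : N.obj X, (e.app X).hom n = m := by
    intro X
    exact (ModuleCat.epi_iff_surjective (e.app X)).1 inferInstance
  choose n hn using fun w : D.Om =>
    hsurj (op (D.orb w)) ((f.app _).hom (Finsupp.single (D.taut w) 1))
  refine ⟨{ app := fun X => ModuleCat.ofHom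
              (Finsupp.linearCombination ℚ (D.avg N n X.unop))
            naturality := ?_ }, ?_⟩
  · intro X Y φ
    apply ModuleCat.hom_ext
    apply Finsupp.lhom_ext
    intro w b
    have h1 := D.avg_pull N n φ.unop w
    change Finsupp.linearCombination ℚ (D.avg N n Y.unop)
        (Finsupp.mapDomain (Dat.pull φ.unop) (Finsupp.single w b)) =
      (N.map φ).hom (Finsupp.linearCombination ℚ (D.avg N n X.unop) (Finsupp.single w b))
    rw [Finsupp.mapDomain_single, Finsupp.linearCombination_single,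
      Finsupp.linearCombination_single, map_smul]
    congr 1
    exact h1.symm
  · apply NatTrans.ext
    funext X
    apply ModuleCat.hom_ext
    apply Finsupp.lhom_ext
    intro w b
    change (e.app X).hom (Finsupp.linearCombination ℚ (D.avg N n X.unop) (Finsupp.single w b)) =
      (f.app X).hom (Finsupp.single w b)
    rw [Finsupp.linearCombination_single, map_smul]
    have h1 : (e.app X).hom (D.avg N n X.unop w) = (f.app X).hom (Finsupp.single w 1) := by
      unfold Dat.avg
      rw [map_smul, map_sum]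
      have h2 : ∀ g : G, (e.app X).hom (D.val N n X.unop g (g⁻¹ • w.1) (D.avg_mem X.unop w g)) =
        (f.app X).hom (Finsupp.single w 1) := fun g => D.lift_aux M N f e n hn X.unop w g
      rw [Finset.sum_congr rfl (fun g _ => h2 g)]
      rw [Finset.sum_const, Finset.card_univ, ← Nat.cast_smul_eq_nsmul ℚ, smul_smul,
        inv_mul_cancel₀, one_smul]
      exact Nat.cast_ne_zero.2 Fintype.card_ne_zero
    rw [h1, ← map_smul]
    congr 1
    exact Finsupp.smul_single_one w b

end Pool.V113.Gd
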